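import Pool.Agent.Q204.GS.Sup

/-!
# Both inequalities for block matrices
-/

set_option autoImplicit false

open Matrix Finset

namespace Pool.Agent.Q204.GS

section
variable {A B : Type} [Fintype A] [DecidableEq A] [Fintype B] [DecidableEq B]

theorem block_le₂ {P Q : Matrix (A ⊕ B) (A ⊕ B) ℝ} (hPQ : (P + 1) * Q = 1)
    (hQP : Q * (P + 1) = 1) (hPs : Pᵀ = P) (hQpos : ∀ z, 0 ≤ z ⬝ᵥ Q *ᵥ z)
    {R : Matrix B B ℝ} (hR : Q.toBlocks₂₂ * (R + 1) = 1) (x : B → ℝ) :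
    x ⬝ᵥ R *ᵥ x ≤ x ⬝ᵥ P.toBlocks₂₂ *ᵥ x := by
  set e : B ⊕ A ≃ A ⊕ B := Equiv.sumComm B A with he
  have hsum : P.submatrix e e + 1 = (P + 1).submatrix e e := by
    rw [submatrix_add, Pi.add_apply, Pi.add_apply, submatrix_one_equiv]
  have h1 : (P.submatrix e e + 1) * Q.submatrix e e = 1 := by
    rw [hsum, Matrix.submatrix_mul_equiv, hPQ, submatrix_one_equiv]
  have h2 : Q.submatrix e e * (P.submatrix e e + 1) = 1 := by
    rw [hsum, Matrix.submatrix_mul_equiv, hQP, submatrix_one_equiv]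
  have h3 : (P.submatrix e e)ᵀ = P.submatrix e e := by
    rw [transpose_submatrix, hPs]
  have h4 : ∀ z, 0 ≤ z ⬝ᵥ (Q.submatrix e e) *ᵥ z := by
    intro z
    have := hQpos (z ∘ e.symm)
    have e1 : (z ∘ e.symm) ⬝ᵥ Q *ᵥ (z ∘ e.symm) = z ⬝ᵥ (Q.submatrix e e) *ᵥ z := by
      rw [Matrix.submatrix_mulVec_equiv]
      simp only [dotProduct, Function.comp_apply]
      rw [← Equiv.sum_comp e]
      refine Finset.sum_congr rfl fun i _ => ?_
      rw [Equiv.symm_apply_apply]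
    rw [← e1]
    exact this
  exact block_le (P := P.submatrix e e) (Q := Q.submatrix e e) h1 h2 h3 h4 (R := R) hR x

/-- the block form -/
theorem form_blocks {σA : Matrix A A ℝ} {σB : Matrix B B ℝ} (hA : Form σA) (hB : Form σB) :
    Form (fromBlocks σA 0 0 σB) := by
  constructor
  · rw [fromBlocks_transpose, hA.anti, hB.anti, transpose_zero, transpose_zero, fromBlocks_neg,
      neg_zero, neg_zero]
  · rw [fromBlocks_multiply, hA.sq, hB.sq]
    simp only [Matrix.mul_zero, Matrix.zero_mul, add_zero, zero_add]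
    rw [← fromBlocks_one, fromBlocks_neg, neg_zero, neg_zero]

theorem orth_blocks {J J' : Type} [Fintype J] [DecidableEq J] [Fintype J'] [DecidableEq J']
    {V : Matrix A J ℝ} {W : Matrix B J' ℝ} (hV : V * Vᵀ = 1) (hV' : Vᵀ * V = 1) (hW : W * Wᵀ = 1)
    (hW' : Wᵀ * W = 1) : (fromBlocks V 0 0 W) * (fromBlocks V 0 0 W)ᵀ = 1 ∧
      (fromBlocks V 0 0 W)ᵀ * (fromBlocks V 0 0 W) = 1 := by
  rw [fromBlocks_transpose, fromBlocks_multiply, fromBlocks_multiply]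
  simp only [Matrix.mul_zero, Matrix.zero_mul, add_zero, zero_add, transpose_zero, hV, hV', hW, hW',
    fromBlocks_one, and_self]

/-- **Superadditivity.** -/
theorem superadd {σA : Matrix A A ℝ} {σB : Matrix B B ℝ} (hA : Form σA) (hB : Form σB)
    {a b : ℕ} (ha : Fintype.card A = 2 * a) (hb : Fintype.card B = 2 * b)
    {S : Matrix (A ⊕ B) (A ⊕ B) ℝ} (hS : Sᵀ * fromBlocks σA 0 0 σB * S = fromBlocks σA 0 0 σB) :
    ∃ (SA : Matrix A A ℝ) (SB : Matrix B B ℝ), SAᵀ * σA * SA = σA ∧ SBᵀ * σB * SB = σB ∧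
      (∀ x, x ⬝ᵥ (SAᵀ * SA) *ᵥ x ≤ x ⬝ᵥ (Sᵀ * S).toBlocks₁₁ *ᵥ x) ∧
      (∀ x, x ⬝ᵥ (SBᵀ * SB) *ᵥ x ≤ x ⬝ᵥ (Sᵀ * S).toBlocks₂₂ *ᵥ x) ∧
      val a SA + val b SB ≤ val (a + b) S := by
  have hσ := form_blocks hA hB
  have hcard : Fintype.card (A ⊕ B) = 2 * (a + b) := by
    rw [Fintype.card_sum, ha, hb]; ring
  obtain ⟨V, l, hd, hl, hv⟩ := val_eq hσ hS hcard
  obtain ⟨Q, hQ⟩ : ∃ Q, Q = V * diagonal (fun j => 1 / (l j + 1)) * Vᵀ := ⟨_, rfl⟩
  have hr := hd.res hl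
  rw [← hQ] at hr
  have hDQ : Dec Q V (fun j => 1 / (l j + 1)) := ⟨hd.right, hd.left, hQ⟩
  have hmem : ∀ j, 1 / (l j + 1) ∈ Set.Ioo (0 : ℝ) 1 := fun j => phi_mem (hl j)
  have hrel := res_rel (gram hσ hS) hr.1 hr.2
  have hQs := hDQ.symm
  -- the blocks
  have hQb : Q = fromBlocks Q.toBlocks₁₁ Q.toBlocks₁₂ Q.toBlocks₂₁ Q.toBlocks₂₂ :=
    (fromBlocks_toBlocks Q).symm
  have hrelA : σA * Q.toBlocks₁₁ + Q.toBlocks₁₁ * σA = σA := by
    have h1 := hrel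
    rw [hQb, fromBlocks_multiply, fromBlocks_multiply, fromBlocks_add, fromBlocks_inj] at h1
    simpa only [Matrix.mul_zero, Matrix.zero_mul, add_zero, zero_add] using h1.1
  have hrelB : σB * Q.toBlocks₂₂ + Q.toBlocks₂₂ * σB = σB := by
    have h1 := hrel
    rw [hQb, fromBlocks_multiply, fromBlocks_multiply, fromBlocks_add, fromBlocks_inj] at h1
    simpa only [Matrix.mul_zero, Matrix.zero_mul, add_zero, zero_add] using h1.2.2.2
  have hsA : (Q.toBlocks₁₁)ᵀ = Q.toBlocks₁₁ := by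
    ext i j
    have := congrFun (congrFun hQs (Sum.inl i)) (Sum.inl j)
    simpa [toBlocks₁₁] using this
  have hsB : (Q.toBlocks₂₂)ᵀ = Q.toBlocks₂₂ := by
    ext i j
    have := congrFun (congrFun hQs (Sum.inr i)) (Sum.inr j)
    simpa [toBlocks₂₂] using this
  obtain ⟨WA, qA, hDA⟩ := exists_dec _ hsA
  obtain ⟨WB, qB, hDB⟩ := exists_dec _ hsB
  set U : Matrix (A ⊕ B) (A ⊕ B) ℝ := fromBlocks WA 0 0 WB with hU
  obtain ⟨hU1, hU2⟩ := orth_blocks hDA.right hDA.left hDB.right hDB.left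
  -- diagonal entries
  have hUQ : Uᵀ * Q * U = fromBlocks (WAᵀ * Q.toBlocks₁₁ * WA) (WAᵀ * Q.toBlocks₁₂ * WB)
      (WBᵀ * Q.toBlocks₂₁ * WA) (WBᵀ * Q.toBlocks₂₂ * WB) := by
    rw [hU, hQb, fromBlocks_transpose, fromBlocks_multiply, fromBlocks_multiply]
    simp only [Matrix.mul_zero, Matrix.zero_mul, add_zero, zero_add, transpose_zero,
      toBlocks_fromBlocks₁₁, toBlocks_fromBlocks₁₂, toBlocks_fromBlocks₂₁, toBlocks_fromBlocks₂₂]
  have hdA : ∀ i, (Uᵀ * Q * U) (Sum.inl i) (Sum.inl i) = qA i := by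
    intro i
    rw [hUQ, fromBlocks_apply₁₁, hDA.conj, diagonal_apply_eq]
  have hdB : ∀ i, (Uᵀ * Q * U) (Sum.inr i) (Sum.inr i) = qB i := by
    intro i
    rw [hUQ, fromBlocks_apply₂₂, hDB.conj, diagonal_apply_eq]
  have hentry : ∀ p, (Uᵀ * Q * U) p p ∈ Set.Ioo (0 : ℝ) 1 := by
    intro p
    have h1 := compress_mem hDQ hmem (fun k => U k p) (by
      have := congrFun (congrFun hU2 p) p
      rw [Matrix.mul_apply, one_apply_eq] at this
      rw [← this]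
      rfl)
    have h2 : (fun k => U k p) ⬝ᵥ Q *ᵥ (fun k => U k p) = (Uᵀ * Q * U) p p := by
      rw [Matrix.mul_assoc, Matrix.mul_apply]
      simp only [dotProduct, transpose_apply, Matrix.mul_apply, mulVec]
    rwa [h2] at h1
  have hqA : ∀ i, qA i ∈ Set.Ioo (0 : ℝ) 1 := fun i => by rw [← hdA i]; exact hentry _
  have hqB : ∀ i, qB i ∈ Set.Ioo (0 : ℝ) 1 := fun i => by rw [← hdB i]; exact hentry _
  obtain ⟨SA, hSA, _, hvA, hRA⟩ := block hA hrelA hDA hqA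
  obtain ⟨SB, hSB, _, hvB, hRB⟩ := block hB hrelB hDB hqB
  have hPs : (Sᵀ * S)ᵀ = Sᵀ * S := by rw [transpose_mul, transpose_transpose]
  have hQpos : ∀ z, 0 ≤ z ⬝ᵥ Q *ᵥ z := by
    intro z
    rw [hDQ.quad]
    exact Finset.sum_nonneg fun j _ => mul_nonneg (hmem j).1.le (sq_nonneg _)
  refine ⟨SA, SB, hSA, hSB, fun x => block_le hr.1 hr.2 hPs hQpos hRA x,
    fun x => block_le₂ hr.1 hr.2 hPs hQpos hRB x, ?_⟩
  rw [hvA a ha, hvB b hb, hv]
  have h3 := peierls hDQ convex_phi hmem U hU1 hU2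
  rw [Fintype.sum_sum_type] at h3
  simp_rw [hdA, hdB, phi_inv (hl _)] at h3
  linarith

/-- **Subadditivity.** -/
theorem subadd {σA : Matrix A A ℝ} {σB : Matrix B B ℝ} (hA : Form σA) (hB : Form σB)
    {a b : ℕ} (ha : Fintype.card A = 2 * a) (hb : Fintype.card B = 2 * b)
    {SA : Matrix A A ℝ} {SB : Matrix B B ℝ} (hSA : SAᵀ * σA * SA = σA)
    (hSB : SBᵀ * σB * SB = σB) :
    (fromBlocks SA 0 0 SB)ᵀ * fromBlocks σA 0 0 σB * fromBlocks SA 0 0 SB =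
      fromBlocks σA 0 0 σB ∧
    (fromBlocks SA 0 0 SB)ᵀ * fromBlocks SA 0 0 SB = fromBlocks (SAᵀ * SA) 0 0 (SBᵀ * SB) ∧
    val (a + b) (fromBlocks SA 0 0 SB) = val a SA + val b SB := by
  have h1 : (fromBlocks SA 0 0 SB)ᵀ * fromBlocks σA 0 0 σB * fromBlocks SA 0 0 SB =
      fromBlocks σA 0 0 σB := by
    rw [fromBlocks_transpose, fromBlocks_multiply, fromBlocks_multiply]
    simp only [Matrix.mul_zero, Matrix.zero_mul, add_zero, zero_add, transpose_zero, hSA, hSB]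
  have h2 : (fromBlocks SA 0 0 SB)ᵀ * fromBlocks SA 0 0 SB =
      fromBlocks (SAᵀ * SA) 0 0 (SBᵀ * SB) := by
    rw [fromBlocks_transpose, fromBlocks_multiply]
    simp only [Matrix.mul_zero, Matrix.zero_mul, add_zero, zero_add, transpose_zero]
  refine ⟨h1, h2, ?_⟩
  obtain ⟨VA, lA, hDA, hlA, hvA⟩ := val_eq hA hSA ha
  obtain ⟨VB, lB, hDB, hlB, hvB⟩ := val_eq hB hSB hb
  have hσ := form_blocks hA hB
  have hcard : Fintype.card (A ⊕ B) = 2 * (a + b) := by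
    rw [Fintype.card_sum, ha, hb]; ring
  obtain ⟨hU1, hU2⟩ := orth_blocks hDA.right hDA.left hDB.right hDB.left
  have hD : Dec ((fromBlocks SA 0 0 SB)ᵀ * fromBlocks SA 0 0 SB) (fromBlocks VA 0 0 VB)
      (Sum.elim lA lB) := by
    refine ⟨hU1, hU2, ?_⟩
    have e : diagonal (Sum.elim lA lB) = fromBlocks (diagonal lA) 0 0 (diagonal lB) :=
      (fromBlocks_diagonal lA lB).symm
    rw [h2, e, fromBlocks_transpose, fromBlocks_multiply, fromBlocks_multiply, hDA.eq, hDB.eq]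
    simp only [Matrix.mul_zero, Matrix.zero_mul, add_zero, zero_add, transpose_zero]
  rw [val_dec hσ h1 hcard hD (by rintro (j | j); exacts [hlA j, hlB j]), hvA, hvB,
    Fintype.sum_sum_type]
  simp only [Sum.elim_inl, Sum.elim_inr]
  ring

end

end Pool.Agent.Q204.GS
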