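import Mathlib

/-!
# Orthogonal diagonalization of real symmetric matrices, and a trace inequality
-/

set_option autoImplicit false

open Matrix Finset

namespace Pool.Agent.Q204.GS

section
variable {N J J' : Type} [Fintype N] [DecidableEq N] [Fintype J] [DecidableEq J] [Fintype J']
  [DecidableEq J']

/-- `P = V diag(l) Vᵀ` with `V` orthogonal -/
structure Dec (P : Matrix N N ℝ) (V : Matrix N J ℝ) (l : J → ℝ) : Prop where
  right : V * Vᵀ = 1
  left : Vᵀ * V = 1
  eq : P = V * diagonal l * Vᵀ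

theorem Dec.symm {P : Matrix N N ℝ} {V : Matrix N J ℝ} {l : J → ℝ} (h : Dec P V l) : Pᵀ = P := by
  rw [h.eq, transpose_mul, transpose_mul, transpose_transpose, diagonal_transpose,
    Matrix.mul_assoc]

/-- functions of `P` -/
theorem Dec.mul {P Q : Matrix N N ℝ} {V : Matrix N J ℝ} {l m : J → ℝ} (h : Dec P V l)
    (h' : Dec Q V m) : P * Q = V * diagonal (fun j => l j * m j) * Vᵀ := by
  have e : P * Q = V * diagonal l * (Vᵀ * V) * diagonal m * Vᵀ := by
    rw [h.eq, h'.eq]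
    simp only [Matrix.mul_assoc]
  rw [e, h.left, Matrix.mul_one, Matrix.mul_assoc V, diagonal_mul_diagonal]

theorem Dec.conj {P : Matrix N N ℝ} {V : Matrix N J ℝ} {l : J → ℝ} (h : Dec P V l) :
    Vᵀ * P * V = diagonal l := by
  have e : Vᵀ * P * V = (Vᵀ * V) * diagonal l * (Vᵀ * V) := by
    rw [h.eq]
    simp only [Matrix.mul_assoc]
  rw [e, h.left, Matrix.one_mul, Matrix.mul_one]

theorem exists_dec (P : Matrix N N ℝ) (hP : Pᵀ = P) : ∃ (V : Matrix N N ℝ) (l : N → ℝ), Dec P V l := by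
  have hH : P.IsHermitian := by
    rw [Matrix.IsHermitian, conjTranspose_eq_transpose_of_trivial]
    exact hP
  refine ⟨(hH.eigenvectorUnitary : Matrix N N ℝ), hH.eigenvalues, ?_, ?_, ?_⟩
  · have := (Matrix.mem_unitaryGroup_iff (A := (hH.eigenvectorUnitary : Matrix N N ℝ))).1
      hH.eigenvectorUnitary.2
    rwa [star_eq_conjTranspose, conjTranspose_eq_transpose_of_trivial] at this
  · have := (Matrix.mem_unitaryGroup_iff' (A := (hH.eigenvectorUnitary : Matrix N N ℝ))).1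
      hH.eigenvectorUnitary.2
    rwa [star_eq_conjTranspose, conjTranspose_eq_transpose_of_trivial] at this
  · have := hH.spectral_theorem
    rw [Unitary.conjStarAlgAut_apply] at this
    rw [star_eq_conjTranspose, conjTranspose_eq_transpose_of_trivial] at this
    exact this

/-- quadratic form of `P` -/
theorem Dec.quad {P : Matrix N N ℝ} {V : Matrix N J ℝ} {l : J → ℝ} (h : Dec P V l) (x : N → ℝ) :
    x ⬝ᵥ P *ᵥ x = ∑ j, l j * (Vᵀ *ᵥ x) j ^ 2 := by
  rw [h.eq, Matrix.mul_assoc, ← Matrix.mulVec_mulVec, ← Matrix.mulVec_mulVec,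
    Matrix.dotProduct_mulVec, ← Matrix.mulVec_transpose]
  unfold dotProduct
  refine Finset.sum_congr rfl fun j _ => ?_
  rw [mulVec_diagonal]
  ring

theorem quad_one {V : Matrix N J ℝ} (h : V * Vᵀ = 1) (x : N → ℝ) :
    x ⬝ᵥ x = ∑ j, (Vᵀ *ᵥ x) j ^ 2 := by
  have : x ⬝ᵥ x = x ⬝ᵥ (V * Vᵀ) *ᵥ x := by rw [h, one_mulVec]
  rw [this, ← Matrix.mulVec_mulVec, Matrix.dotProduct_mulVec, ← Matrix.mulVec_transpose]
  unfold dotProduct
  exact Finset.sum_congr rfl fun j _ => by ring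

/-- **Trace inequality.** -/
theorem peierls {Q : Matrix N N ℝ} {V : Matrix N J ℝ} {q : J → ℝ} (h : Dec Q V q)
    {s : Set ℝ} {f : ℝ → ℝ} (hf : ConvexOn ℝ s f) (hq : ∀ j, q j ∈ s) (U : Matrix N J' ℝ)
    (hU1 : U * Uᵀ = 1) (hU2 : Uᵀ * U = 1) :
    ∑ k, f ((Uᵀ * Q * U) k k) ≤ ∑ j, f (q j) := by
  set W : Matrix J J' ℝ := Vᵀ * U with hW
  have h1 : Wᵀ * W = 1 := by
    rw [hW, transpose_mul, transpose_transpose]
    have : Uᵀ * V * (Vᵀ * U) = Uᵀ * (V * Vᵀ) * U := by simp only [Matrix.mul_assoc]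
    rw [this, h.right, Matrix.mul_one, hU2]
  have h2 : W * Wᵀ = 1 := by
    rw [hW, transpose_mul, transpose_transpose]
    have : Vᵀ * U * (Uᵀ * V) = Vᵀ * (U * Uᵀ) * V := by simp only [Matrix.mul_assoc]
    rw [this, hU1, Matrix.mul_one, h.left]
  have h3 : Uᵀ * Q * U = Wᵀ * diagonal q * W := by
    rw [hW, h.eq, transpose_mul, transpose_transpose]
    simp only [Matrix.mul_assoc]
  have h4 : ∀ k, (Uᵀ * Q * U) k k = ∑ j, W j k ^ 2 • q j := by
    intro k
    rw [h3, Matrix.mul_apply]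
    refine Finset.sum_congr rfl fun j _ => ?_
    rw [mul_diagonal, transpose_apply, smul_eq_mul]
    ring
  have h5 : ∀ k, ∑ j, W j k ^ 2 = 1 := by
    intro k
    have : (Wᵀ * W) k k = 1 := by rw [h1, one_apply_eq]
    rw [Matrix.mul_apply] at this
    rw [← this]
    exact Finset.sum_congr rfl fun j _ => by rw [transpose_apply]; ring
  have h6 : ∀ j, ∑ k, W j k ^ 2 = 1 := by
    intro j
    have : (W * Wᵀ) j j = 1 := by rw [h2, one_apply_eq]
    rw [Matrix.mul_apply] at this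
    rw [← this]
    exact Finset.sum_congr rfl fun k _ => by rw [transpose_apply]; ring
  calc ∑ k, f ((Uᵀ * Q * U) k k) ≤ ∑ k, ∑ j, W j k ^ 2 • f (q j) := by
        refine Finset.sum_le_sum fun k _ => ?_
        rw [h4]
        exact hf.map_sum_le (fun j _ => sq_nonneg _) (h5 k) (fun j _ => hq j)
    _ = ∑ j, ∑ k, W j k ^ 2 • f (q j) := Finset.sum_comm
    _ = ∑ j, f (q j) := by
        refine Finset.sum_congr rfl fun j _ => ?_
        rw [← Finset.sum_smul, h6, one_smul]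

end

/-! ### The convex function -/

/-- `|log ((1 - q) / q)|` -/
noncomputable def phi (q : ℝ) : ℝ := |Real.log ((1 - q) / q)|

theorem phi_inv {l : ℝ} (hl : 0 < l) : phi (1 / (l + 1)) = |Real.log l| := by
  unfold phi
  congr 2
  field_simp
  ring

theorem convex_psi : ConvexOn ℝ (Set.Ico 0 1) (fun t : ℝ => Real.log ((1 + t) / (1 - t))) := by
  have hd1 : ∀ t : ℝ, 0 ≤ t → t < 1 →
      HasDerivAt (fun t : ℝ => Real.log ((1 + t) / (1 - t))) (2 / (1 - t ^ 2)) t := by
    intro t h0 h1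
    have e1 : HasDerivAt (fun t : ℝ => 1 + t) 1 t := by
      simpa using (hasDerivAt_id t).const_add 1
    have e2 : HasDerivAt (fun t : ℝ => 1 - t) (-1) t := by
      simpa using (hasDerivAt_id t).const_sub 1
    have h3 : (1 - t) ≠ 0 := by linarith
    have h4 : (1 + t) / (1 - t) ≠ 0 := by
      apply div_ne_zero
      · linarith
      · exact h3
    have h5 := (e1.fun_div e2 h3).log h4
    refine h5.congr_deriv ?_
    have h6 : (1 - t ^ 2) ≠ 0 := by
      have : (1 - t ^ 2) = (1 - t) * (1 + t) := by ring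
      rw [this]
      exact mul_ne_zero h3 (by linarith)
    have h7 : (1 + t) ≠ 0 := by linarith
    field_simp
    ring
  have hd2 : ∀ t : ℝ, 0 ≤ t → t < 1 →
      HasDerivAt (fun t : ℝ => 2 / (1 - t ^ 2)) (4 * t / (1 - t ^ 2) ^ 2) t := by
    intro t h0 h1
    have e1 : HasDerivAt (fun t : ℝ => 1 - t ^ 2) (-(2 * t)) t := by
      have := (hasDerivAt_pow 2 t).const_sub 1
      simpa using this
    have h3 : (1 - t ^ 2) ≠ 0 := by
      have : (1 - t ^ 2) = (1 - t) * (1 + t) := by ring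
      rw [this]
      exact mul_ne_zero (by linarith) (by linarith)
    have h5 := (hasDerivAt_const t (2 : ℝ)).fun_div e1 h3
    refine h5.congr_deriv ?_
    ring
  refine convexOn_of_hasDerivWithinAt2_nonneg (convex_Ico 0 1)
    (f' := fun t => 2 / (1 - t ^ 2)) (f'' := fun t => 4 * t / (1 - t ^ 2) ^ 2)
    (fun t ht => (hd1 t ht.1 ht.2).continuousAt.continuousWithinAt)
    (fun t ht => (hd1 t (interior_subset ht).1 (interior_subset ht).2).hasDerivWithinAt)
    (fun t ht => (hd2 t (interior_subset ht).1 (interior_subset ht).2).hasDerivWithinAt) ?_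
  intro t ht
  have := (interior_subset ht).1
  positivity

theorem mono_psi : MonotoneOn (fun t : ℝ => Real.log ((1 + t) / (1 - t))) (Set.Ico 0 1) := by
  intro s hs t ht hst
  have h1 : 0 < 1 - s := by linarith [hs.2]
  have h2 : 0 < 1 - t := by linarith [ht.2]
  refine Real.log_le_log (div_pos (by linarith [hs.1]) h1) ?_
  rw [div_le_div_iff₀ h1 h2]
  nlinarith

theorem phi_eq {q : ℝ} (h0 : 0 < q) (h1 : q < 1) :
    phi q = Real.log ((1 + |1 - 2 * q|) / (1 - |1 - 2 * q|)) := by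
  unfold phi
  rcases le_total q (1 / 2) with h | h
  · have e : |1 - 2 * q| = 1 - 2 * q := abs_of_nonneg (by linarith)
    rw [e]
    have e2 : (1 + (1 - 2 * q)) / (1 - (1 - 2 * q)) = (1 - q) / q := by
      field_simp
      ring
    rw [e2, abs_of_nonneg]
    refine Real.log_nonneg ?_
    rw [le_div_iff₀ h0]
    linarith
  · have e : |1 - 2 * q| = -(1 - 2 * q) := abs_of_nonpos (by linarith)
    rw [e]
    have h2 : (1 - q) ≠ 0 := by linarith
    have e2 : (1 + -(1 - 2 * q)) / (1 - -(1 - 2 * q)) = ((1 - q) / q)⁻¹ := by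
      have h3 : (1 - -(1 - 2 * q)) ≠ 0 := by
        have : (1 - -(1 - 2 * q)) = 2 * (1 - q) := by ring
        rw [this]
        exact mul_ne_zero two_ne_zero h2
      rw [inv_div]
      rw [div_eq_div_iff h3 h2]
      ring
    rw [e2, Real.log_inv, abs_of_nonpos]
    refine Real.log_nonpos (div_nonneg (by linarith) h0.le) ?_
    rw [div_le_one h0]
    linarith

theorem convex_phi : ConvexOn ℝ (Set.Ioo 0 1) phi := by
  have h1 : ConvexOn ℝ (Set.Ioo (0 : ℝ) 1) (fun q : ℝ => |1 - 2 * q|) := by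
    refine ⟨convex_Ioo 0 1, ?_⟩
    intro x _ y _ a b ha hb hab
    have e : 1 - 2 * (a • x + b • y) = a * (1 - 2 * x) + b * (1 - 2 * y) := by
      simp only [smul_eq_mul]
      linear_combination (-1 : ℝ) * hab
    show |1 - 2 * (a • x + b • y)| ≤ a • |1 - 2 * x| + b • |1 - 2 * y|
    rw [e, smul_eq_mul, smul_eq_mul]
    refine (abs_add_le _ _).trans ?_
    rw [abs_mul, abs_mul, abs_of_nonneg ha, abs_of_nonneg hb]
  have him : (fun q : ℝ => |1 - 2 * q|) '' Set.Ioo (0 : ℝ) 1 ⊆ Set.Ico 0 1 := by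
    rintro _ ⟨q, hq, rfl⟩
    refine ⟨abs_nonneg _, ?_⟩
    show |1 - 2 * q| < 1
    rw [abs_lt]
    constructor <;> linarith [hq.1, hq.2]
  refine ⟨convex_Ioo 0 1, ?_⟩
  intro x hx y hy a b ha hb hab
  have hz : a • x + b • y ∈ Set.Ioo (0 : ℝ) 1 := convex_Ioo 0 1 hx hy ha hb hab
  rw [phi_eq hz.1 hz.2, phi_eq hx.1 hx.2, phi_eq hy.1 hy.2]
  have h2 := h1.2 hx hy ha hb hab
  have mx := him ⟨x, hx, rfl⟩
  have my := him ⟨y, hy, rfl⟩
  have mz := him ⟨_, hz, rfl⟩
  have h3 := convex_psi.2 mx my ha hb hab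
  have h4 : a • |1 - 2 * x| + b • |1 - 2 * y| ∈ Set.Ico (0 : ℝ) 1 :=
    convex_Ico 0 1 mx my ha hb hab
  exact (mono_psi mz h4 h2).trans h3

end Pool.Agent.Q204.GS
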