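import Pool.Agent.Q204.GS.Wil

/-!
# The operational squeezing measure `G`: definitions and additivity
-/

set_option autoImplicit false

open Matrix Finset
open scoped ComplexOrder

namespace Pool.Agent.Q204.GS

/-- The symplectic form on the phase space of the modes `ι`: the coordinates of the mode `i` are
`Q_i = (i, 0)` and `P_i = (i, 1)`, and `σ` is the direct sum of the blocks `((0, 1), (-1, 0))`. -/
def sig (ι : Type) [DecidableEq ι] : Matrix (ι × Fin 2) (ι × Fin 2) ℝ :=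
  fun p q => if p.1 = q.1 then !![(0 : ℝ), 1; -1, 0] p.2 q.2 else 0

section
variable {ι κ : Type} [Fintype ι] [DecidableEq ι] [Fintype κ] [DecidableEq κ]

/-- `γ` is a covariance matrix: real symmetric, and `γ - i σ` is positive semidefinite. -/
def IsCov (γ : Matrix (ι × Fin 2) (ι × Fin 2) ℝ) : Prop :=
  γᵀ = γ ∧ (γ.map (fun x => (x : ℂ)) - Complex.I • (sig ι).map (fun x => (x : ℂ))).PosSemidef

/-- The real symplectic matrices `S` with `γ ≥ Sᵀ S` (Loewner order). -/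
def Feas (γ : Matrix (ι × Fin 2) (ι × Fin 2) ℝ) : Set (Matrix (ι × Fin 2) (ι × Fin 2) ℝ) :=
  {S | Sᵀ * sig ι * S = sig ι ∧ (γ - Sᵀ * S).PosSemidef}

/-- The sum of the logarithms of the `n` largest singular values, `n` the number of modes. -/
noncomputable def logs (S : Matrix (ι × Fin 2) (ι × Fin 2) ℝ) : ℝ :=
  ∑ i ∈ range (Fintype.card ι), Real.log ((toEuclideanLin S).singularValues i)

/-- The squeezing measure: the infimum of `logs S` over the symplectic `S` with `γ ≥ Sᵀ S`. -/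
noncomputable def G (γ : Matrix (ι × Fin 2) (ι × Fin 2) ℝ) : ℝ := sInf (logs '' Feas γ)

/-- The direct sum (block diagonal matrix) on the disjoint union of the modes. -/
def dsum (γA : Matrix (ι × Fin 2) (ι × Fin 2) ℝ) (γB : Matrix (κ × Fin 2) (κ × Fin 2) ℝ) :
    Matrix ((ι ⊕ κ) × Fin 2) ((ι ⊕ κ) × Fin 2) ℝ :=
  fun p q => match p, q with
    | (Sum.inl i, a), (Sum.inl j, b) => γA (i, a) (j, b)
    | (Sum.inr i, a), (Sum.inr j, b) => γB (i, a) (j, b)
    | _, _ => 0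

theorem form_sig : Form (sig ι) := by
  constructor
  · ext ⟨i, a⟩ ⟨j, b⟩
    rw [transpose_apply, neg_apply]
    unfold sig
    by_cases h : i = j
    · subst h
      fin_cases a <;> fin_cases b <;> simp
    · rw [if_neg (fun h' => h h'.symm), if_neg h, neg_zero]
  · ext ⟨i, a⟩ ⟨j, b⟩
    rw [Matrix.mul_apply, Fintype.sum_prod_type]
    unfold sig
    simp only [Fin.sum_univ_two]
    by_cases h : i = j
    · subst h
      rw [Finset.sum_eq_single i]
      · fin_cases a <;> fin_cases b <;> simp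
      · intro k _ hk
        simp [hk, Ne.symm hk]
      · intro h; exact absurd (mem_univ _) h
    · rw [Finset.sum_eq_zero]
      · have : ((i, a) : ι × Fin 2) ≠ (j, b) := fun h' => h (Prod.mk.inj h').1
        rw [neg_apply, one_apply_ne this, neg_zero]
      · intro k _
        by_cases hk : i = k
        · subst hk
          simp [h]
        · simp [hk]

theorem card_phase : Fintype.card (ι × Fin 2) = 2 * Fintype.card ι := by
  rw [Fintype.card_prod, Fintype.card_fin]; ring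

theorem logs_eq (S : Matrix (ι × Fin 2) (ι × Fin 2) ℝ) : logs S = val (Fintype.card ι) S := rfl

/-- the index equivalence -/
def eq' (ι κ : Type) : (ι ⊕ κ) × Fin 2 ≃ (ι × Fin 2) ⊕ (κ × Fin 2) := Equiv.sumProdDistrib ι κ (Fin 2)

theorem dsum_eq (γA : Matrix (ι × Fin 2) (ι × Fin 2) ℝ) (γB : Matrix (κ × Fin 2) (κ × Fin 2) ℝ) :
    dsum γA γB = (fromBlocks γA 0 0 γB).submatrix (eq' ι κ) (eq' ι κ) := by
  ext ⟨i | i, a⟩ ⟨j | j, b⟩ <;> rfl

theorem sig_eq : sig (ι ⊕ κ) = (fromBlocks (sig ι) 0 0 (sig κ)).submatrix (eq' ι κ) (eq' ι κ) := by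
  ext ⟨i | i, a⟩ ⟨j | j, b⟩
  · show (if Sum.inl i = Sum.inl j then _ else _) = (if i = j then _ else _)
    by_cases h : i = j
    · subst h; rw [if_pos rfl, if_pos rfl]
    · rw [if_neg h, if_neg (fun h' => h (Sum.inl_injective h'))]
  · rfl
  · rfl
  · show (if Sum.inr i = Sum.inr j then _ else _) = (if i = j then _ else _)
    by_cases h : i = j
    · subst h; rw [if_pos rfl, if_pos rfl]
    · rw [if_neg h, if_neg (fun h' => h (Sum.inr_injective h'))]

theorem feas_iff {γ : Matrix (ι × Fin 2) (ι × Fin 2) ℝ} (hγ : γᵀ = γ)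
    (S : Matrix (ι × Fin 2) (ι × Fin 2) ℝ) :
    S ∈ Feas γ ↔ Sᵀ * sig ι * S = sig ι ∧ ∀ x, x ⬝ᵥ (Sᵀ * S) *ᵥ x ≤ x ⬝ᵥ γ *ᵥ x := by
  unfold Feas
  rw [Set.mem_ofPred_eq]
  refine and_congr_right fun _ => ?_
  have hs : (γ - Sᵀ * S).IsHermitian := by
    rw [Matrix.IsHermitian, conjTranspose_eq_transpose_of_trivial, transpose_sub, transpose_mul,
      transpose_transpose, hγ]
  rw [Matrix.posSemidef_iff_dotProduct_mulVec]
  constructor
  · rintro ⟨_, h⟩ x
    have h1 := h x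
    rw [star_trivial, sub_mulVec, dotProduct_sub] at h1
    linarith
  · intro h
    refine ⟨hs, fun x => ?_⟩
    have h1 := h x
    rw [star_trivial, sub_mulVec, dotProduct_sub]
    linarith

/-- the real form of the condition on a covariance matrix -/
theorem cov_real {γ : Matrix (ι × Fin 2) (ι × Fin 2) ℝ} (h : IsCov γ) (a b : ι × Fin 2 → ℝ) :
    2 * (a ⬝ᵥ sig ι *ᵥ b) ≤ a ⬝ᵥ γ *ᵥ a + b ⬝ᵥ γ *ᵥ b := by
  have h1 := (Matrix.posSemidef_iff_dotProduct_mulVec.1 h.2).2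
    (fun i => (a i : ℂ) - (b i : ℂ) * Complex.I)
  have h2 := (Complex.le_def.1 h1).1
  rw [Complex.zero_re] at h2
  have h3 : (star (fun i => (a i : ℂ) - (b i : ℂ) * Complex.I) ⬝ᵥ
      (γ.map (fun x => (x : ℂ)) - Complex.I • (sig ι).map (fun x => (x : ℂ))) *ᵥ
        (fun i => (a i : ℂ) - (b i : ℂ) * Complex.I)).re =
      a ⬝ᵥ γ *ᵥ a + b ⬝ᵥ γ *ᵥ b - a ⬝ᵥ sig ι *ᵥ b + b ⬝ᵥ sig ι *ᵥ a := by
    simp only [dotProduct, mulVec, Finset.mul_sum, Complex.re_sum, ← Finset.sum_add_distrib,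
      ← Finset.sum_sub_distrib]
    refine Finset.sum_congr rfl fun i _ => Finset.sum_congr rfl fun j _ => ?_
    simp only [Pi.star_apply, Matrix.sub_apply, Matrix.smul_apply, Matrix.map_apply, smul_eq_mul,
      Complex.star_def, map_sub, map_mul, Complex.conj_ofReal, Complex.conj_I, Complex.mul_re,
      Complex.sub_re, Complex.sub_im, Complex.mul_im, Complex.ofReal_re, Complex.ofReal_im,
      Complex.I_re, Complex.I_im, Complex.neg_re, Complex.neg_im]
    ring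
  rw [h3, dot_anti form_sig b a] at h2
  linarith

theorem feas_nonempty {γ : Matrix (ι × Fin 2) (ι × Fin 2) ℝ} (h : IsCov γ) : (Feas γ).Nonempty := by
  obtain ⟨S, h1, h2⟩ := exists_symp form_sig h.1 (cov_real h)
  exact ⟨S, (feas_iff h.1 S).2 ⟨h1, h2⟩⟩

theorem logs_nonneg {γ : Matrix (ι × Fin 2) (ι × Fin 2) ℝ} {S : Matrix (ι × Fin 2) (ι × Fin 2) ℝ}
    (hS : S ∈ Feas γ) : 0 ≤ logs S :=
  val_nonneg form_sig hS.1 card_phase

theorem bdd (γ : Matrix (ι × Fin 2) (ι × Fin 2) ℝ) : BddBelow (logs '' Feas γ) := by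
  refine ⟨0, ?_⟩
  rintro _ ⟨S, hS, rfl⟩
  exact logs_nonneg hS

/-- the value is invariant under a renaming of the indices -/
theorem val_reindex {N N' : Type} [Fintype N] [DecidableEq N] [Fintype N'] [DecidableEq N']
    (e : N' ≃ N) {σ S : Matrix N N ℝ} (hσ : Form σ) (hS : Sᵀ * σ * S = σ) {n : ℕ}
    (hn : Fintype.card N = 2 * n) : val n (S.submatrix e e) = val n S := by
  obtain ⟨V, l, hd, hl, hv⟩ := val_eq hσ hS hn
  have hn' : Fintype.card N' = 2 * n := by rw [Fintype.card_congr e, hn]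
  have hσ' : Form (σ.submatrix e e) := by
    constructor
    · rw [transpose_submatrix, hσ.anti]; rfl
    · rw [Matrix.submatrix_mul_equiv, hσ.sq]
      ext i j
      simp [Matrix.one_apply]
  have hS' : (S.submatrix e e)ᵀ * σ.submatrix e e * S.submatrix e e = σ.submatrix e e := by
    rw [transpose_submatrix, Matrix.submatrix_mul_equiv, Matrix.submatrix_mul_equiv, hS]
  have hD : Dec ((S.submatrix e e)ᵀ * S.submatrix e e) (V.submatrix e id) l := by
    refine ⟨?_, ?_, ?_⟩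
    · rw [transpose_submatrix]
      have : V.submatrix e id * Vᵀ.submatrix id e = (V * Vᵀ).submatrix e e :=
        (Matrix.submatrix_mul V Vᵀ e id e Function.bijective_id).symm
      rw [this, hd.right, submatrix_one_equiv]
    · rw [transpose_submatrix]
      rw [Matrix.submatrix_mul_equiv, hd.left, submatrix_id_id]
    · rw [transpose_submatrix, transpose_submatrix, Matrix.submatrix_mul_equiv, hd.eq]
      have h1 : V.submatrix e id * diagonal l = (V * diagonal l).submatrix e id := by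
        ext i j
        rw [mul_diagonal, submatrix_apply, submatrix_apply, mul_diagonal]
        rfl
      rw [h1]
      exact Matrix.submatrix_mul (V * diagonal l) Vᵀ e id e Function.bijective_id
  rw [val_dec hσ' hS' hn' hD hl, hv]

/-- the quadratic form of a block matrix -/
theorem quad_blocks {A B : Type} [Fintype A] [DecidableEq A] [Fintype B] [DecidableEq B]
    (M : Matrix A A ℝ) (M' : Matrix B B ℝ) (x : A ⊕ B → ℝ) :
    x ⬝ᵥ (fromBlocks M 0 0 M') *ᵥ x =
      (x ∘ Sum.inl) ⬝ᵥ M *ᵥ (x ∘ Sum.inl) + (x ∘ Sum.inr) ⬝ᵥ M' *ᵥ (x ∘ Sum.inr) := by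
  simp only [dotProduct, mulVec, Fintype.sum_sum_type, fromBlocks_apply₁₁, fromBlocks_apply₁₂,
    fromBlocks_apply₂₁, fromBlocks_apply₂₂, Matrix.zero_apply, zero_mul, Finset.sum_const_zero,
    add_zero, zero_add, Function.comp_apply]

theorem quad_submatrix {N N' : Type} [Fintype N] [Fintype N'] (e : N' ≃ N) (M : Matrix N N ℝ)
    (z : N → ℝ) : (z ∘ e) ⬝ᵥ (M.submatrix e e) *ᵥ (z ∘ e) = z ⬝ᵥ M *ᵥ z := by
  have h : (M.submatrix e e) *ᵥ (z ∘ e) = (M *ᵥ z) ∘ e := by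
    funext i
    simp only [mulVec, dotProduct, submatrix_apply, Function.comp_apply]
    exact Equiv.sum_comp e (fun j => M (e i) j * z j)
  rw [h]
  simp only [dotProduct, Function.comp_apply]
  exact Equiv.sum_comp e (fun j => z j * (M *ᵥ z) j)

theorem dsum_symm {γA : Matrix (ι × Fin 2) (ι × Fin 2) ℝ} {γB : Matrix (κ × Fin 2) (κ × Fin 2) ℝ}
    (hA : γAᵀ = γA) (hB : γBᵀ = γB) : (dsum γA γB)ᵀ = dsum γA γB := by
  rw [dsum_eq, transpose_submatrix, fromBlocks_transpose, hA, hB, transpose_zero, transpose_zero]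

theorem feas_dsum {γA : Matrix (ι × Fin 2) (ι × Fin 2) ℝ} {γB : Matrix (κ × Fin 2) (κ × Fin 2) ℝ}
    (hA : γAᵀ = γA) (hB : γBᵀ = γB) {SA : Matrix (ι × Fin 2) (ι × Fin 2) ℝ}
    {SB : Matrix (κ × Fin 2) (κ × Fin 2) ℝ} (h1 : SA ∈ Feas γA) (h2 : SB ∈ Feas γB) :
    dsum SA SB ∈ Feas (dsum γA γB) ∧ logs (dsum SA SB) = logs SA + logs SB := by
  obtain ⟨h11, h12⟩ := (feas_iff hA SA).1 h1
  obtain ⟨h21, h22⟩ := (feas_iff hB SB).1 h2
  obtain ⟨e1, e2, e3⟩ := subadd form_sig form_sig card_phase card_phase h11 h21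
  constructor
  · rw [feas_iff (dsum_symm hA hB)]
    constructor
    · rw [sig_eq, dsum_eq, transpose_submatrix, Matrix.submatrix_mul_equiv,
        Matrix.submatrix_mul_equiv, e1]
    · intro x
      obtain ⟨z, rfl⟩ : ∃ z, x = z ∘ (eq' ι κ) := ⟨x ∘ (eq' ι κ).symm, by
        funext p; simp⟩
      rw [dsum_eq, dsum_eq, transpose_submatrix, Matrix.submatrix_mul_equiv, quad_submatrix,
        quad_submatrix, e2, quad_blocks, quad_blocks]
      exact add_le_add (h12 _) (h22 _)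
  · rw [logs_eq, logs_eq, logs_eq, Fintype.card_sum, ← e3, dsum_eq]
    refine val_reindex _ (form_blocks form_sig form_sig) e1 ?_
    rw [Fintype.card_sum, card_phase, card_phase]; ring

theorem feas_split {γA : Matrix (ι × Fin 2) (ι × Fin 2) ℝ} {γB : Matrix (κ × Fin 2) (κ × Fin 2) ℝ}
    (hA : γAᵀ = γA) (hB : γBᵀ = γB) {S : Matrix ((ι ⊕ κ) × Fin 2) ((ι ⊕ κ) × Fin 2) ℝ}
    (h : S ∈ Feas (dsum γA γB)) : ∃ SA ∈ Feas γA, ∃ SB ∈ Feas γB, logs SA + logs SB ≤ logs S := by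
  obtain ⟨h1, h2⟩ := (feas_iff (dsum_symm hA hB) S).1 h
  obtain ⟨e, he⟩ : ∃ e, e = eq' ι κ := ⟨_, rfl⟩
  set S' := S.submatrix e.symm e.symm with hS'
  have hSS : S = S'.submatrix e e := by
    ext i j; simp [hS']
  have h3 : S'ᵀ * fromBlocks (sig ι) 0 0 (sig κ) * S' = fromBlocks (sig ι) 0 0 (sig κ) := by
    have e1 : fromBlocks (sig ι) 0 0 (sig κ) = (sig (ι ⊕ κ)).submatrix e.symm e.symm := by
      rw [sig_eq, ← he]
      ext i j; simp
    rw [e1, hS', transpose_submatrix, Matrix.submatrix_mul_equiv, Matrix.submatrix_mul_equiv, h1]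
  have h4 : ∀ z, z ⬝ᵥ (S'ᵀ * S') *ᵥ z ≤ z ⬝ᵥ (fromBlocks γA 0 0 γB) *ᵥ z := by
    intro z
    have := h2 (z ∘ e)
    rw [hSS, dsum_eq, ← he, transpose_submatrix, Matrix.submatrix_mul_equiv, quad_submatrix,
      quad_submatrix] at this
    exact this
  obtain ⟨SA, SB, hSA, hSB, hleA, hleB, hval⟩ :=
    superadd form_sig form_sig card_phase card_phase h3
  refine ⟨SA, (feas_iff hA SA).2 ⟨hSA, fun x => (hleA x).trans ?_⟩, SB,
    (feas_iff hB SB).2 ⟨hSB, fun x => (hleB x).trans ?_⟩, ?_⟩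
  · have := h4 (Sum.elim x 0)
    rw [quad_blocks] at this
    have e1 : (Sum.elim x (0 : κ × Fin 2 → ℝ)) ⬝ᵥ (S'ᵀ * S') *ᵥ (Sum.elim x 0) =
        x ⬝ᵥ (S'ᵀ * S').toBlocks₁₁ *ᵥ x := by
      simp only [dotProduct, mulVec, Fintype.sum_sum_type, Sum.elim_inl, Sum.elim_inr,
        Pi.zero_apply, zero_mul, mul_zero, Finset.sum_const_zero, add_zero, toBlocks₁₁, of_apply]
    rw [e1, Sum.elim_comp_inl, Sum.elim_comp_inr] at this
    simpa using this
  · have := h4 (Sum.elim 0 x)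
    rw [quad_blocks] at this
    have e1 : (Sum.elim (0 : ι × Fin 2 → ℝ) x) ⬝ᵥ (S'ᵀ * S') *ᵥ (Sum.elim 0 x) =
        x ⬝ᵥ (S'ᵀ * S').toBlocks₂₂ *ᵥ x := by
      simp only [dotProduct, mulVec, Fintype.sum_sum_type, Sum.elim_inl, Sum.elim_inr,
        Pi.zero_apply, zero_mul, mul_zero, Finset.sum_const_zero, zero_add, toBlocks₂₂, of_apply]
    rw [e1, Sum.elim_comp_inl, Sum.elim_comp_inr] at this
    simpa using this
  · rw [logs_eq, logs_eq, logs_eq, Fintype.card_sum, hSS]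
    rw [val_reindex e (form_blocks form_sig form_sig) h3]
    · exact hval
    · rw [Fintype.card_sum, card_phase, card_phase]; ring

/-- **Additivity.** -/
theorem additive {γA : Matrix (ι × Fin 2) (ι × Fin 2) ℝ} {γB : Matrix (κ × Fin 2) (κ × Fin 2) ℝ}
    (hA : IsCov γA) (hB : IsCov γB) : G (dsum γA γB) = G γA + G γB := by
  have hneA := (feas_nonempty hA).image logs
  have hneB := (feas_nonempty hB).image logs
  apply le_antisymm
  · refine le_of_forall_pos_le_add fun ε hε => ?_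
    obtain ⟨_, ⟨SA, hSA, rfl⟩, hA2⟩ := Real.lt_sInf_add_pos hneA (half_pos hε)
    obtain ⟨_, ⟨SB, hSB, rfl⟩, hB2⟩ := Real.lt_sInf_add_pos hneB (half_pos hε)
    obtain ⟨h1, h2⟩ := feas_dsum hA.1 hB.1 hSA hSB
    have h3 : G (dsum γA γB) ≤ logs (dsum SA SB) := csInf_le (bdd _) ⟨_, h1, rfl⟩
    unfold G at h3 ⊢
    linarith
  · obtain ⟨SA, hSA⟩ := feas_nonempty hA
    obtain ⟨SB, hSB⟩ := feas_nonempty hB
    refine le_csInf ⟨_, _, (feas_dsum hA.1 hB.1 hSA hSB).1, rfl⟩ ?_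
    rintro _ ⟨S, hS, rfl⟩
    obtain ⟨SA, hSA, SB, hSB, hle⟩ := feas_split hA.1 hB.1 hS
    have h1 : G γA ≤ logs SA := csInf_le (bdd _) ⟨_, hSA, rfl⟩
    have h2 : G γB ≤ logs SB := csInf_le (bdd _) ⟨_, hSB, rfl⟩
    linarith

/-- the direct sum is a covariance matrix -/
theorem isCov_dsum {γA : Matrix (ι × Fin 2) (ι × Fin 2) ℝ} {γB : Matrix (κ × Fin 2) (κ × Fin 2) ℝ}
    (hA : IsCov γA) (hB : IsCov γB) : IsCov (dsum γA γB) := by
  refine ⟨dsum_symm hA.1 hB.1, ?_⟩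
  have e : (dsum γA γB).map (fun x => (x : ℂ)) - Complex.I • (sig (ι ⊕ κ)).map (fun x => (x : ℂ)) =
      (fromBlocks (γA.map (fun x => (x : ℂ)) - Complex.I • (sig ι).map (fun x => (x : ℂ))) 0 0
        (γB.map (fun x => (x : ℂ)) - Complex.I • (sig κ).map (fun x => (x : ℂ)))).submatrix
          (eq' ι κ) (eq' ι κ) := by
    rw [dsum_eq, sig_eq]
    ext ⟨i | i, a⟩ ⟨j | j, b⟩ <;> simp [eq']
  rw [e]
  refine Matrix.PosSemidef.submatrix ?_ _
  rw [Matrix.posSemidef_iff_dotProduct_mulVec]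
  obtain ⟨a1, a2⟩ := Matrix.posSemidef_iff_dotProduct_mulVec.1 hA.2
  obtain ⟨b1, b2⟩ := Matrix.posSemidef_iff_dotProduct_mulVec.1 hB.2
  constructor
  · rw [Matrix.IsHermitian, fromBlocks_conjTranspose, a1.eq, b1.eq, conjTranspose_zero,
      conjTranspose_zero]
  · intro x
    have h1 := a2 (x ∘ Sum.inl)
    have h2 := b2 (x ∘ Sum.inr)
    have h3 := add_nonneg h1 h2
    refine h3.trans (le_of_eq ?_)
    simp only [dotProduct, mulVec, Fintype.sum_sum_type, fromBlocks_apply₁₁, fromBlocks_apply₁₂,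
      fromBlocks_apply₂₁, fromBlocks_apply₂₂, Matrix.zero_apply, zero_mul, Finset.sum_const_zero,
      add_zero, zero_add, Function.comp_apply, Pi.star_apply]

end

end Pool.Agent.Q204.GS
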