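import Pool.Agent.Q204.GS.Fin

/-!
# Relabelling the modes
-/

set_option autoImplicit false

open Matrix Finset
open scoped ComplexOrder

namespace Pool.Agent.Q204.GS

section
variable {ι κ : Type} [Fintype ι] [DecidableEq ι] [Fintype κ] [DecidableEq κ]

/-- relabelling of the phase space -/
def lab (e : ι ≃ κ) : ι × Fin 2 ≃ κ × Fin 2 := e.prodCongr (Equiv.refl (Fin 2))

theorem sig_lab (e : ι ≃ κ) : (sig κ).submatrix (lab e) (lab e) = sig ι := by
  ext ⟨i, a⟩ ⟨j, b⟩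
  show (if e i = e j then _ else _) = (if i = j then _ else _)
  by_cases h : i = j
  · subst h; rw [if_pos rfl, if_pos rfl]; rfl
  · rw [if_neg h, if_neg (fun h' => h (e.injective h'))]

theorem feas_lab (e : ι ≃ κ) {γ : Matrix (κ × Fin 2) (κ × Fin 2) ℝ}
    {S : Matrix (κ × Fin 2) (κ × Fin 2) ℝ} (hS : S ∈ Feas γ) :
    S.submatrix (lab e) (lab e) ∈ Feas (γ.submatrix (lab e) (lab e)) ∧
      logs (S.submatrix (lab e) (lab e)) = logs S := by
  refine ⟨⟨?_, ?_⟩, ?_⟩
  · rw [← sig_lab e, transpose_submatrix, Matrix.submatrix_mul_equiv, Matrix.submatrix_mul_equiv,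
      hS.1]
  · have h : γ.submatrix (lab e) (lab e) -
        (S.submatrix (lab e) (lab e))ᵀ * S.submatrix (lab e) (lab e) =
        (γ - Sᵀ * S).submatrix (lab e) (lab e) := by
      rw [transpose_submatrix, Matrix.submatrix_mul_equiv]
      rfl
    rw [h]
    exact hS.2.submatrix _
  · rw [logs_eq, logs_eq, Fintype.card_congr e]
    exact val_reindex (lab e) form_sig hS.1 card_phase

theorem values_lab (e : ι ≃ κ) (γ : Matrix (κ × Fin 2) (κ × Fin 2) ℝ) :
    logs '' Feas (γ.submatrix (lab e) (lab e)) = logs '' Feas γ := by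
  ext r
  constructor
  · rintro ⟨S, hS, rfl⟩
    obtain ⟨h1, h2⟩ := feas_lab e.symm hS
    refine ⟨S.submatrix (lab e.symm) (lab e.symm), ?_, h2⟩
    have h3 : (γ.submatrix (lab e) (lab e)).submatrix (lab e.symm) (lab e.symm) = γ := by
      ext ⟨i, a⟩ ⟨j, b⟩
      simp [lab]
    rwa [h3] at h1
  · rintro ⟨S, hS, rfl⟩
    obtain ⟨h1, h2⟩ := feas_lab e hS
    exact ⟨_, h1, h2⟩

theorem G_lab (e : ι ≃ κ) (γ : Matrix (κ × Fin 2) (κ × Fin 2) ℝ) :
    G (γ.submatrix (lab e) (lab e)) = G γ := by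
  unfold G
  rw [values_lab]

theorem isCov_lab (e : ι ≃ κ) {γ : Matrix (κ × Fin 2) (κ × Fin 2) ℝ} (h : IsCov γ) :
    IsCov (γ.submatrix (lab e) (lab e)) := by
  refine ⟨by rw [transpose_submatrix, h.1], ?_⟩
  have h1 : (γ.submatrix (lab e) (lab e)).map (fun x => (x : ℂ)) -
      Complex.I • (sig ι).map (fun x => (x : ℂ)) =
      (γ.map (fun x => (x : ℂ)) - Complex.I • (sig κ).map (fun x => (x : ℂ))).submatrix
        (lab e) (lab e) := by
    rw [← sig_lab e]
    rfl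
  rw [h1]
  exact h.2.submatrix _

end

/-- The direct sum `γA ⊕ γB` on `m + n` modes: the block diagonal matrix, the first `m` modes
carrying `γA` and the last `n` modes carrying `γB`. -/
def dirSum {m n : ℕ} (γA : Matrix (Fin m × Fin 2) (Fin m × Fin 2) ℝ)
    (γB : Matrix (Fin n × Fin 2) (Fin n × Fin 2) ℝ) :
    Matrix (Fin (m + n) × Fin 2) (Fin (m + n) × Fin 2) ℝ :=
  fun p q => dsum γA γB (finSumFinEquiv.symm p.1, p.2) (finSumFinEquiv.symm q.1, q.2)

theorem dirSum_eq {m n : ℕ} (γA : Matrix (Fin m × Fin 2) (Fin m × Fin 2) ℝ)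
    (γB : Matrix (Fin n × Fin 2) (Fin n × Fin 2) ℝ) :
    dirSum γA γB = (dsum γA γB).submatrix (lab finSumFinEquiv.symm) (lab finSumFinEquiv.symm) := rfl

theorem main {m n : ℕ} (γA : Matrix (Fin m × Fin 2) (Fin m × Fin 2) ℝ)
    (γB : Matrix (Fin n × Fin 2) (Fin n × Fin 2) ℝ) (hA : IsCov γA) (hB : IsCov γB) :
    IsCov (dirSum γA γB) ∧ G (dirSum γA γB) = G γA + G γB := by
  constructor
  · rw [dirSum_eq]
    exact isCov_lab _ (isCov_dsum hA hB)
  · rw [dirSum_eq, G_lab, additive hA hB]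

end Pool.Agent.Q204.GS
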