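import Pool.Agent.Q204.GS.Sym

/-!
# Superadditivity by pinching the resolvent
-/

set_option autoImplicit false

open Matrix Finset

namespace Pool.Agent.Q204.GS

section
variable {N J J' : Type} [Fintype N] [DecidableEq N] [Fintype J] [DecidableEq J] [Fintype J']
  [DecidableEq J']

/-- `(P + 1)⁻¹` -/
theorem Dec.res {P : Matrix N N ℝ} {V : Matrix N J ℝ} {l : J → ℝ} (h : Dec P V l)
    (hl : ∀ j, 0 < l j) : (P + 1) * (V * diagonal (fun j => 1 / (l j + 1)) * Vᵀ) = 1 ∧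
      (V * diagonal (fun j => 1 / (l j + 1)) * Vᵀ) * (P + 1) = 1 := by
  have h1 : Dec (P + 1) V (fun j => l j + 1) := by
    refine ⟨h.right, h.left, ?_⟩
    have e : (diagonal fun j => l j + 1) = diagonal l + 1 := by
      rw [← diagonal_one, diagonal_add]
    rw [e, Matrix.mul_add, Matrix.add_mul, Matrix.mul_one, h.right, ← h.eq]
  have h2 : Dec (V * diagonal (fun j => 1 / (l j + 1)) * Vᵀ) V (fun j => 1 / (l j + 1)) :=
    ⟨h.right, h.left, rfl⟩
  constructor
  · rw [h1.mul h2]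
    have e : (fun j => (l j + 1) * (1 / (l j + 1))) = fun _ => (1 : ℝ) := by
      funext j
      have := hl j
      field_simp
    rw [e, diagonal_one, Matrix.mul_one, h.right]
  · rw [h2.mul h1]
    have e : (fun j => (1 / (l j + 1)) * (l j + 1)) = fun _ => (1 : ℝ) := by
      funext j
      have := hl j
      field_simp
    rw [e, diagonal_one, Matrix.mul_one, h.right]

theorem phi_mem {l : ℝ} (hl : 0 < l) : 1 / (l + 1) ∈ Set.Ioo (0 : ℝ) 1 := by
  constructor
  · positivity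
  · rw [div_lt_one (by linarith)]
    linarith

theorem indep_le {P : Matrix N N ℝ} {V : Matrix N J ℝ} {l : J → ℝ} {V' : Matrix N J' ℝ}
    {l' : J' → ℝ} (h : Dec P V l) (h' : Dec P V' l') (hl : ∀ j, 0 < l j) (hl' : ∀ j, 0 < l' j) :
    ∑ j, |Real.log (l' j)| ≤ ∑ j, |Real.log (l j)| := by
  obtain ⟨Q, hQ⟩ : ∃ Q, Q = V * diagonal (fun j => 1 / (l j + 1)) * Vᵀ := ⟨_, rfl⟩
  have h1 : Dec Q V (fun j => 1 / (l j + 1)) := ⟨h.right, h.left, hQ⟩
  have h2 : Q = V' * diagonal (fun j => 1 / (l' j + 1)) * V'ᵀ := by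
    have e1 := (h.res hl).2
    have e2 := (h'.res hl').1
    rw [← hQ] at e1
    calc Q = Q * ((P + 1) * (V' * diagonal (fun j => 1 / (l' j + 1)) * V'ᵀ)) := by
          rw [e2, Matrix.mul_one]
      _ = (Q * (P + 1)) * (V' * diagonal (fun j => 1 / (l' j + 1)) * V'ᵀ) :=
          (Matrix.mul_assoc _ _ _).symm
      _ = _ := by rw [e1, Matrix.one_mul]
  have h3 : Dec Q V' (fun j => 1 / (l' j + 1)) := ⟨h'.right, h'.left, h2⟩
  have h4 := peierls h1 convex_phi (fun j => phi_mem (hl j)) V' h'.right h'.left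
  rw [h3.conj] at h4
  simp only [diagonal_apply_eq] at h4
  calc ∑ j, |Real.log (l' j)| = ∑ j, phi (1 / (l' j + 1)) :=
        Finset.sum_congr rfl fun j _ => (phi_inv (hl' j)).symm
    _ ≤ ∑ j, phi (1 / (l j + 1)) := h4
    _ = _ := Finset.sum_congr rfl fun j _ => phi_inv (hl j)

theorem indep {P : Matrix N N ℝ} {V : Matrix N J ℝ} {l : J → ℝ} {V' : Matrix N J' ℝ}
    {l' : J' → ℝ} (h : Dec P V l) (h' : Dec P V' l') (hl : ∀ j, 0 < l j) (hl' : ∀ j, 0 < l' j) :
    ∑ j, |Real.log (l' j)| = ∑ j, |Real.log (l j)| :=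
  le_antisymm (indep_le h h' hl hl') (indep_le h' h hl' hl)

/-- the value, for any diagonalization -/
theorem val_dec {σ S : Matrix N N ℝ} (hσ : Form σ) (hS : Sᵀ * σ * S = σ) {n : ℕ}
    (hn : Fintype.card N = 2 * n) {V : Matrix N J ℝ} {l : J → ℝ} (h : Dec (Sᵀ * S) V l)
    (hl : ∀ j, 0 < l j) : val n S = 1 / 4 * ∑ j, |Real.log (l j)| := by
  obtain ⟨V', l', h', hl', hv⟩ := val_eq hσ hS hn
  rw [hv, indep h h' hl hl']

theorem pos_of_gram {σ S : Matrix N N ℝ} (hσ : Form σ) (hS : Sᵀ * σ * S = σ)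
    {V : Matrix N J ℝ} {l : J → ℝ} (h : Dec (Sᵀ * S) V l) (j : J) : 0 < l j :=
  lt_of_le_of_ne (val_nonneg_eigen h j) (l_ne hσ h (gram hσ hS) j).symm

theorem val_nonneg {σ S : Matrix N N ℝ} (hσ : Form σ) (hS : Sᵀ * σ * S = σ) {n : ℕ}
    (hn : Fintype.card N = 2 * n) : 0 ≤ val n S := by
  obtain ⟨V', l', h', hl', hv⟩ := val_eq hσ hS hn
  rw [hv]
  have : 0 ≤ ∑ j, |Real.log (l' j)| := Finset.sum_nonneg fun j _ => abs_nonneg _
  linarith

/-- functions of a matrix that are symplectic -/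
theorem symp_of_pair {σ : Matrix N N ℝ} {V : Matrix N J ℝ} (h1 : V * Vᵀ = 1) {c : J → ℝ}
    (hc : ∀ j k, (Vᵀ * σ * V) j k ≠ 0 → c j * c k = 1) :
    (V * diagonal c * Vᵀ)ᵀ * σ * (V * diagonal c * Vᵀ) = σ := by
  have e0 : (V * diagonal c * Vᵀ)ᵀ = V * diagonal c * Vᵀ := by
    rw [transpose_mul, transpose_mul, transpose_transpose, diagonal_transpose, Matrix.mul_assoc]
  rw [e0]
  have e1 : diagonal c * (Vᵀ * σ * V) * diagonal c = Vᵀ * σ * V := by
    ext j k
    rw [mul_diagonal, diagonal_mul]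
    by_cases h : (Vᵀ * σ * V) j k = 0
    · rw [h]; simp
    · have := hc j k h
      calc c j * (Vᵀ * σ * V) j k * c k = (c j * c k) * (Vᵀ * σ * V) j k := by ring
        _ = _ := by rw [this, one_mul]
  calc V * diagonal c * Vᵀ * σ * (V * diagonal c * Vᵀ) =
        V * (diagonal c * (Vᵀ * σ * V) * diagonal c) * Vᵀ := by simp only [Matrix.mul_assoc]
    _ = (V * Vᵀ) * σ * (V * Vᵀ) := by rw [e1]; simp only [Matrix.mul_assoc]
    _ = σ := by rw [h1, Matrix.one_mul, Matrix.mul_one]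

end

section
variable {A B : Type} [Fintype A] [DecidableEq A] [Fintype B] [DecidableEq B]

/-- the resolvent of a symplectic Gram matrix -/
theorem res_rel {N : Type} [Fintype N] [DecidableEq N] {σ P Q : Matrix N N ℝ}
    (hP : P * σ * P = σ) (h1 : (P + 1) * Q = 1) (h2 : Q * (P + 1) = 1) : σ * Q + Q * σ = σ := by
  have e : (P + 1) * (σ * Q + Q * σ) * (P + 1) = (P + 1) * σ * (P + 1) := by
    have e1 : (P + 1) * (σ * Q + Q * σ) * (P + 1) =
        (P + 1) * σ * (Q * (P + 1)) + ((P + 1) * Q) * σ * (P + 1) := by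
      generalize P + 1 = R
      rw [Matrix.mul_add, Matrix.add_mul]
      simp only [Matrix.mul_assoc]
    rw [e1, h1, h2, Matrix.mul_one, Matrix.one_mul]
    have e2 : (P + 1) * σ * (P + 1) = P * σ * P + P * σ + σ * P + σ := by
      simp only [Matrix.mul_add, Matrix.add_mul, Matrix.mul_one, Matrix.one_mul]
      abel
    rw [e2, hP]
    simp only [Matrix.mul_add, Matrix.add_mul, Matrix.mul_one, Matrix.one_mul]
    abel
  calc σ * Q + Q * σ = Q * ((P + 1) * (σ * Q + Q * σ) * (P + 1)) * Q := by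
        have : Q * ((P + 1) * (σ * Q + Q * σ) * (P + 1)) * Q =
          (Q * (P + 1)) * (σ * Q + Q * σ) * ((P + 1) * Q) := by simp only [Matrix.mul_assoc]
        rw [this, h1, h2, Matrix.one_mul, Matrix.mul_one]
    _ = Q * ((P + 1) * σ * (P + 1)) * Q := by rw [e]
    _ = (Q * (P + 1)) * σ * ((P + 1) * Q) := by simp only [Matrix.mul_assoc]
    _ = σ := by rw [h1, h2, Matrix.one_mul, Matrix.mul_one]

/-- one block: from a compression `Q` of the resolvent to a symplectic matrix -/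
theorem block {σ Q : Matrix A A ℝ} (hσ : Form σ) (hrel : σ * Q + Q * σ = σ)
    {W : Matrix A A ℝ} {q : A → ℝ} (h : Dec Q W q) (hq : ∀ i, q i ∈ Set.Ioo (0 : ℝ) 1) :
    ∃ S : Matrix A A ℝ, Sᵀ * σ * S = σ ∧ Dec (Sᵀ * S) W (fun i => (1 - q i) / q i) ∧
      (∀ n, Fintype.card A = 2 * n → val n S = 1 / 4 * ∑ i, phi (q i)) ∧
      Q * (Sᵀ * S + 1) = 1 := by
  set K := Wᵀ * σ * W with hK
  have hKrel : ∀ j k, K j k ≠ 0 → q j + q k = 1 := by
    intro j k hjk
    have e : diagonal q * K + K * diagonal q = K := by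
      have e1 : diagonal q * Wᵀ = Wᵀ * Q := by
        rw [h.eq]
        have : Wᵀ * (W * diagonal q * Wᵀ) = (Wᵀ * W) * diagonal q * Wᵀ := by
          simp only [Matrix.mul_assoc]
        rw [this, h.left, Matrix.one_mul]
      have e2 : W * diagonal q = Q * W := by
        rw [h.eq]
        have : W * diagonal q * Wᵀ * W = W * diagonal q * (Wᵀ * W) := by
          simp only [Matrix.mul_assoc]
        rw [this, h.left, Matrix.mul_one]
      calc diagonal q * K + K * diagonal q =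
          (diagonal q * Wᵀ) * σ * W + Wᵀ * σ * (W * diagonal q) := by
            rw [hK]; simp only [Matrix.mul_assoc]
        _ = Wᵀ * (σ * Q + Q * σ) * W := by
            rw [e1, e2, Matrix.mul_add, Matrix.add_mul]
            simp only [Matrix.mul_assoc]
            rw [add_comm]
        _ = K := by rw [hrel]
    have e3 := congrFun (congrFun e j) k
    rw [Matrix.add_apply, mul_diagonal, diagonal_mul] at e3
    have : (q j + q k - 1) * K j k = 0 := by linarith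
    rcases mul_eq_zero.1 this with h3 | h3
    · linarith
    · exact absurd h3 hjk
  set m : A → ℝ := fun i => (1 - q i) / q i with hm
  have hm0 : ∀ i, 0 < m i := fun i => div_pos (by linarith [(hq i).2]) (hq i).1
  set S := W * diagonal (fun i => √(m i)) * Wᵀ with hS
  have hsymp : Sᵀ * σ * S = σ := by
    refine symp_of_pair h.right fun j k hjk => ?_
    have h1 := hKrel j k hjk
    rw [← Real.sqrt_mul (hm0 j).le]
    have : m j * m k = 1 := by
      simp only [hm]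
      have e : q k = 1 - q j := by linarith
      have h3 := (hq j).1
      have h4 := (hq j).2
      rw [e]
      have h5 : 1 - q j ≠ 0 := by linarith
      field_simp
      ring
    rw [this, Real.sqrt_one]
  have hST : Sᵀ = S := by
    rw [hS, transpose_mul, transpose_mul, transpose_transpose, diagonal_transpose, Matrix.mul_assoc]
  have hD : Dec S W (fun i => √(m i)) := ⟨h.right, h.left, rfl⟩
  have hgram : Dec (Sᵀ * S) W m := by
    refine ⟨h.right, h.left, ?_⟩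
    rw [hST, hD.mul hD]
    have : (fun j => √(m j) * √(m j)) = m := by
      funext j
      exact Real.mul_self_sqrt (hm0 j).le
    rw [this]
  refine ⟨S, hsymp, hgram, fun n hn => ?_, ?_⟩
  · rw [val_dec hσ hsymp hn hgram hm0]
    rfl
  · have h1 := (hgram.res hm0).2
    have e : (fun j => 1 / (m j + 1)) = q := by
      funext j
      have := (hq j).1
      simp only [hm]
      field_simp
      ring
    rw [e, ← h.eq] at h1
    exact h1

/-- the compression is between `0` and `1` -/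
theorem compress_mem {N : Type} [Fintype N] [DecidableEq N] {J : Type} [Fintype J] [DecidableEq J]
    {Q : Matrix N N ℝ} {V : Matrix N J ℝ} {q : J → ℝ} (h : Dec Q V q)
    (hq : ∀ j, q j ∈ Set.Ioo (0 : ℝ) 1) (x : N → ℝ) (hx : x ⬝ᵥ x = 1) :
    x ⬝ᵥ Q *ᵥ x ∈ Set.Ioo (0 : ℝ) 1 := by
  have h1 := h.quad x
  have h2 := quad_one h.right x
  rw [hx] at h2
  -- some coefficient is not zero
  obtain ⟨j0, hj0⟩ : ∃ j, 0 < (Vᵀ *ᵥ x) j ^ 2 := by
    by_contra hcon
    push Not at hcon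
    have : ∑ j, (Vᵀ *ᵥ x) j ^ 2 ≤ 0 := Finset.sum_nonpos fun j _ => hcon j
    linarith
  constructor
  · rw [h1]
    exact Finset.sum_pos' (fun j _ => mul_nonneg (hq j).1.le (sq_nonneg _))
      ⟨j0, mem_univ _, mul_pos (hq j0).1 hj0⟩
  · rw [h1, h2]
    refine Finset.sum_lt_sum (fun j _ => ?_) ⟨j0, mem_univ _, ?_⟩
    · have := mul_le_mul_of_nonneg_right (hq j).2.le (sq_nonneg ((Vᵀ *ᵥ x) j))
      linarith
    · have := mul_lt_mul_of_pos_right (hq j0).2 hj0
      linarith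

/-- the compressed matrix is below the block -/
theorem block_le {P Q : Matrix (A ⊕ B) (A ⊕ B) ℝ} (hPQ : (P + 1) * Q = 1) (hQP : Q * (P + 1) = 1)
    (hPs : Pᵀ = P) (hQpos : ∀ z, 0 ≤ z ⬝ᵥ Q *ᵥ z)
    {R : Matrix A A ℝ} (hR : Q.toBlocks₁₁ * (R + 1) = 1) (x : A → ℝ) :
    x ⬝ᵥ R *ᵥ x ≤ x ⬝ᵥ P.toBlocks₁₁ *ᵥ x := by
  set y : A → ℝ := (R + 1) *ᵥ x with hy
  set w : A ⊕ B → ℝ := Sum.elim y 0 with hw
  set z : A ⊕ B → ℝ := Sum.elim x 0 with hz
  have hQs : Qᵀ = Q := by
    have e1 : Qᵀ * (P + 1) = 1 := by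
      have := congrArg Matrix.transpose hPQ
      rw [transpose_mul, transpose_add, hPs, transpose_one] at this
      exact this
    calc Qᵀ = Qᵀ * ((P + 1) * Q) := by rw [hPQ, Matrix.mul_one]
      _ = (Qᵀ * (P + 1)) * Q := by rw [Matrix.mul_assoc]
      _ = Q := by rw [e1, Matrix.one_mul]
  have hbl : ∀ (M : Matrix (A ⊕ B) (A ⊕ B) ℝ) (u v : A → ℝ),
      (Sum.elim u (0 : B → ℝ)) ⬝ᵥ M *ᵥ (Sum.elim v (0 : B → ℝ)) = u ⬝ᵥ M.toBlocks₁₁ *ᵥ v := by
    intro M u v
    simp only [dotProduct, mulVec, Fintype.sum_sum_type, Sum.elim_inl, Sum.elim_inr,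
      Pi.zero_apply, zero_mul, mul_zero, Finset.sum_const_zero, add_zero, toBlocks₁₁, of_apply]
  have h1 := hQpos (w - (P + 1) *ᵥ z)
  have e1 : Q *ᵥ (w - (P + 1) *ᵥ z) = Q *ᵥ w - z := by
    rw [mulVec_sub, mulVec_mulVec, hQP, one_mulVec]
  rw [e1, sub_dotProduct, dotProduct_sub, dotProduct_sub] at h1
  have e2 : ((P + 1) *ᵥ z) ⬝ᵥ (Q *ᵥ w) = z ⬝ᵥ w := by
    rw [dotProduct_mulVec, ← mulVec_transpose, hQs, mulVec_mulVec, hQP, one_mulVec]
  have e3 : w ⬝ᵥ Q *ᵥ w = y ⬝ᵥ x := by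
    rw [hw, hbl, hy, mulVec_mulVec, hR, one_mulVec]
  have e4 : w ⬝ᵥ z = y ⬝ᵥ x := by
    simp only [dotProduct, Fintype.sum_sum_type, hw, hz, Sum.elim_inl, Sum.elim_inr,
      Pi.zero_apply, mul_zero, Finset.sum_const_zero, add_zero]
  have e5 : ((P + 1) *ᵥ z) ⬝ᵥ z = x ⬝ᵥ P.toBlocks₁₁ *ᵥ x + x ⬝ᵥ x := by
    rw [dotProduct_comm, add_mulVec, one_mulVec, dotProduct_add, hz, hbl]
    congr 1
    simp only [dotProduct, Fintype.sum_sum_type, Sum.elim_inl, Sum.elim_inr,
      Pi.zero_apply, mul_zero, Finset.sum_const_zero, add_zero]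
  have e6 : y ⬝ᵥ x = x ⬝ᵥ R *ᵥ x + x ⬝ᵥ x := by
    rw [dotProduct_comm, hy, add_mulVec, one_mulVec, dotProduct_add]
  rw [e2, e3, dotProduct_comm z w, e4, e5] at h1
  linarith

end

end Pool.Agent.Q204.GS
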