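import Pool.Agent.Q204.GS.Dec

/-!
# Positive symplectic matrices: the sum of the logarithms of the large singular values
-/

set_option autoImplicit false

open Matrix Finset

namespace Pool.Agent.Q204.GS

section
variable {N J : Type} [Fintype N] [DecidableEq N] [Fintype J] [DecidableEq J]

/-- a symplectic form in standard shape: `σᵀ = -σ`, `σ² = -1` -/
structure Form (σ : Matrix N N ℝ) : Prop where
  anti : σᵀ = -σ
  sq : σ * σ = -1

theorem gram {σ S : Matrix N N ℝ} (hσ : Form σ) (hS : Sᵀ * σ * S = σ) :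
    (Sᵀ * S) * σ * (Sᵀ * S) = σ := by
  -- `S σ Sᵀ = σ`
  have h1 : (-(σ * Sᵀ * σ)) * S = 1 := by
    have e : (-(σ * Sᵀ * σ)) * S = -(σ * (Sᵀ * σ * S)) := by
      rw [Matrix.neg_mul]
      simp only [Matrix.mul_assoc]
    rw [e, hS, hσ.sq, neg_neg]
  have h2 : S * (-(σ * Sᵀ * σ)) = 1 := mul_eq_one_comm.1 h1
  have h3 : S * σ * Sᵀ = σ := by
    have e : S * (-(σ * Sᵀ * σ)) * σ = S * σ * Sᵀ := by
      have : S * (-(σ * Sᵀ * σ)) * σ = -(S * σ * Sᵀ * (σ * σ)) := by
        rw [Matrix.mul_neg, Matrix.neg_mul]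
        simp only [Matrix.mul_assoc]
      rw [this, hσ.sq, Matrix.mul_neg, Matrix.mul_one, neg_neg]
    rw [← e, h2, Matrix.one_mul]
  calc (Sᵀ * S) * σ * (Sᵀ * S) = Sᵀ * (S * σ * Sᵀ) * S := by simp only [Matrix.mul_assoc]
    _ = σ := by rw [h3, hS]

/-- the form in the eigenbasis -/
theorem K_rel {σ P : Matrix N N ℝ} {V : Matrix N J ℝ} {l : J → ℝ} (h : Dec P V l)
    (hP : P * σ * P = σ) (j k : J) : l j * l k * (Vᵀ * σ * V) j k = (Vᵀ * σ * V) j k := by
  have e : diagonal l * (Vᵀ * σ * V) * diagonal l = Vᵀ * σ * V := by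
    have e1 : diagonal l * Vᵀ = Vᵀ * P := by
      rw [h.eq]
      have : Vᵀ * (V * diagonal l * Vᵀ) = (Vᵀ * V) * diagonal l * Vᵀ := by
        simp only [Matrix.mul_assoc]
      rw [this, h.left, Matrix.one_mul]
    have e2 : V * diagonal l = P * V := by
      rw [h.eq]
      have : V * diagonal l * Vᵀ * V = V * diagonal l * (Vᵀ * V) := by
        simp only [Matrix.mul_assoc]
      rw [this, h.left, Matrix.mul_one]
    calc diagonal l * (Vᵀ * σ * V) * diagonal l = (diagonal l * Vᵀ) * σ * (V * diagonal l) := by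
          simp only [Matrix.mul_assoc]
      _ = Vᵀ * (P * σ * P) * V := by rw [e1, e2]; simp only [Matrix.mul_assoc]
      _ = Vᵀ * σ * V := by rw [hP]
  have e3 := congrFun (congrFun e j) k
  rw [mul_diagonal, diagonal_mul] at e3
  linarith

theorem K_sum {σ : Matrix N N ℝ} (hσ : Form σ) {V : Matrix N J ℝ} (h1 : V * Vᵀ = 1)
    (h2 : Vᵀ * V = 1) (j : J) : ∑ k, (Vᵀ * σ * V) j k ^ 2 = 1 := by
  have e : (Vᵀ * σ * V) * (Vᵀ * σ * V)ᵀ = 1 := by
    rw [transpose_mul, transpose_mul, transpose_transpose, hσ.anti]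
    have : Vᵀ * σ * V * (Vᵀ * (-σ * V)) = Vᵀ * σ * (V * Vᵀ) * (-σ) * V := by
      simp only [Matrix.mul_assoc]
    rw [this, h1, Matrix.mul_one]
    have : Vᵀ * σ * (-σ) * V = -(Vᵀ * (σ * σ) * V) := by
      rw [Matrix.mul_neg, Matrix.neg_mul]
      simp only [Matrix.mul_assoc]
    rw [this, hσ.sq, Matrix.mul_neg, Matrix.neg_mul, neg_neg, Matrix.mul_one, h2]
  have e2 := congrFun (congrFun e j) j
  rw [one_apply_eq, Matrix.mul_apply] at e2
  rw [← e2]
  exact Finset.sum_congr rfl fun k _ => by rw [transpose_apply]; ring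

theorem K_anti {σ : Matrix N N ℝ} (hσ : Form σ) (V : Matrix N J ℝ) (j k : J) :
    (Vᵀ * σ * V) j k ^ 2 = (Vᵀ * σ * V) k j ^ 2 := by
  have e : (Vᵀ * σ * V)ᵀ = -(Vᵀ * σ * V) := by
    rw [transpose_mul, transpose_mul, transpose_transpose, hσ.anti, Matrix.neg_mul, Matrix.mul_neg]
    simp only [Matrix.mul_assoc]
  have e2 := congrFun (congrFun e k) j
  rw [transpose_apply] at e2
  rw [e2]
  simp

/-- the eigenvalues of a symplectic symmetric `P` are not zero -/
theorem l_ne {σ P : Matrix N N ℝ} (hσ : Form σ) {V : Matrix N J ℝ} {l : J → ℝ} (h : Dec P V l)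
    (hP : P * σ * P = σ) (j : J) : l j ≠ 0 := by
  intro h0
  have h1 := K_sum hσ h.right h.left j
  have h2 : ∑ k, (Vᵀ * σ * V) j k ^ 2 = 0 := by
    refine Finset.sum_eq_zero fun k _ => ?_
    rw [← K_rel h hP j k, h0]
    simp
  rw [h2] at h1
  exact zero_ne_one h1

/-- the eigenvalues come in pairs `l, 1/l` -/
theorem sum_inv {σ P : Matrix N N ℝ} (hσ : Form σ) {V : Matrix N J ℝ} {l : J → ℝ} (h : Dec P V l)
    (hP : P * σ * P = σ) (F : ℝ → ℝ) : ∑ j, F (l j) = ∑ j, F (l j)⁻¹ := by
  calc ∑ j, F (l j) = ∑ j, ∑ k, (Vᵀ * σ * V) j k ^ 2 * F (l j) := by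
        refine Finset.sum_congr rfl fun j _ => ?_
        rw [← Finset.sum_mul, K_sum hσ h.right h.left, one_mul]
    _ = ∑ j, ∑ k, (Vᵀ * σ * V) j k ^ 2 * F (l k)⁻¹ := by
        refine Finset.sum_congr rfl fun j _ => Finset.sum_congr rfl fun k _ => ?_
        by_cases hK : (Vᵀ * σ * V) j k = 0
        · rw [hK]; simp
        · have h1 := K_rel h hP j k
          have h2 : l j * l k = 1 := by
            have : (l j * l k - 1) * (Vᵀ * σ * V) j k = 0 := by linarith
            rcases mul_eq_zero.1 this with h3 | h3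
            · linarith
            · exact absurd h3 hK
          have h3 : l j = (l k)⁻¹ := by
            have h4 : l k ≠ 0 := by
              intro h0
              rw [h0, mul_zero] at h2
              exact zero_ne_one h2
            field_simp
            linarith
          rw [h3]
    _ = ∑ k, ∑ j, (Vᵀ * σ * V) j k ^ 2 * F (l k)⁻¹ := Finset.sum_comm
    _ = ∑ k, F (l k)⁻¹ := by
        refine Finset.sum_congr rfl fun k _ => ?_
        rw [← Finset.sum_mul]
        have : ∑ j, (Vᵀ * σ * V) j k ^ 2 = 1 := by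
          rw [← K_sum hσ h.right h.left k]
          exact Finset.sum_congr rfl fun j _ => K_anti hσ V j k
        rw [this, one_mul]

end

/-- half of a symmetric decreasing sequence -/
theorem half_sum (n : ℕ) (b : ℕ → ℝ) (hb : ∀ i j, i ≤ j → j < 2 * n → b j ≤ b i)
    (h0 : ∑ i ∈ range (2 * n), b i = 0)
    (hc : ((range (2 * n)).filter (fun i => 0 < b i)).card =
      ((range (2 * n)).filter (fun i => b i < 0)).card) :
    ∑ i ∈ range n, b i = 1 / 2 * ∑ i ∈ range (2 * n), |b i| := by
  have hdisj : Disjoint ((range (2 * n)).filter (fun i => 0 < b i))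
      ((range (2 * n)).filter (fun i => b i < 0)) := by
    rw [Finset.disjoint_filter]
    intro i _ h1 h2
    linarith
  have hle : ((range (2 * n)).filter (fun i => 0 < b i)).card +
      ((range (2 * n)).filter (fun i => b i < 0)).card ≤ 2 * n := by
    rw [← Finset.card_union_of_disjoint hdisj]
    refine (Finset.card_le_card (Finset.union_subset (filter_subset _ _) (filter_subset _ _))).trans ?_
    rw [card_range]
  have h1 : ∀ i, i < n → 0 ≤ b i := by
    intro i hi
    by_contra hneg
    push Not at hneg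
    have hsub : Finset.Ico i (2 * n) ⊆ (range (2 * n)).filter (fun i => b i < 0) := by
      intro k hk
      rw [Finset.mem_Ico] at hk
      rw [mem_filter, mem_range]
      exact ⟨hk.2, (hb i k hk.1 hk.2).trans_lt hneg⟩
    have := Finset.card_le_card hsub
    rw [Nat.card_Ico] at this
    omega
  have h2 : ∀ i, n ≤ i → i < 2 * n → b i ≤ 0 := by
    intro i hi hi2
    by_contra hpos
    push Not at hpos
    have hsub : range (i + 1) ⊆ (range (2 * n)).filter (fun i => 0 < b i) := by
      intro k hk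
      rw [mem_range] at hk
      rw [mem_filter, mem_range]
      exact ⟨by omega, hpos.trans_le (hb k i (by omega) hi2)⟩
    have := Finset.card_le_card hsub
    rw [card_range] at this
    omega
  have hsplit : ∀ f : ℕ → ℝ, ∑ i ∈ range (2 * n), f i =
      ∑ i ∈ range n, f i + ∑ i ∈ Finset.Ico n (2 * n), f i := by
    intro f
    rw [Finset.range_eq_Ico, Finset.range_eq_Ico, Finset.sum_Ico_consecutive f (Nat.zero_le n)
      (by omega)]
  rw [hsplit] at h0
  rw [hsplit]
  have e1 : ∑ i ∈ range n, |b i| = ∑ i ∈ range n, b i :=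
    Finset.sum_congr rfl fun i hi => abs_of_nonneg (h1 i (mem_range.1 hi))
  have e2 : ∑ i ∈ Finset.Ico n (2 * n), |b i| = -∑ i ∈ Finset.Ico n (2 * n), b i := by
    rw [← Finset.sum_neg_distrib]
    refine Finset.sum_congr rfl fun i hi => ?_
    rw [Finset.mem_Ico] at hi
    exact abs_of_nonpos (h2 i hi.1 hi.2)
  rw [e1, e2]
  linarith

section
variable {N : Type} [Fintype N] [DecidableEq N]

/-- the sum of the logarithms of the `n` largest singular values -/
noncomputable def val (n : ℕ) (S : Matrix N N ℝ) : ℝ :=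
  ∑ i ∈ range n, Real.log ((toEuclideanLin S).singularValues i)

/-- the singular values give a diagonalization of the Gram matrix -/
theorem sv_dec (S : Matrix N N ℝ) : ∃ (V : Matrix N (Fin (Fintype.card N)) ℝ)
    (l : Fin (Fintype.card N) → ℝ), Dec (Sᵀ * S) V l ∧ Antitone l ∧
    ∀ i : Fin (Fintype.card N), (toEuclideanLin S).singularValues i = √(l i) := by
  have hn : Module.finrank ℝ (EuclideanSpace ℝ N) = Fintype.card N := by simp
  set T := toEuclideanLin S with hT
  have hsym := T.isSymmetric_adjoint_comp_self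
  set b := hsym.eigenvectorBasis hn with hb
  set l := hsym.eigenvalues hn with hl
  set V : Matrix N (Fin (Fintype.card N)) ℝ := Matrix.of fun i j => b j i with hV
  have hVV : Vᵀ * V = 1 := by
    ext j k
    rw [Matrix.mul_apply]
    have h1 := orthonormal_iff_ite.1 b.orthonormal j k
    rw [EuclideanSpace.inner_eq_star_dotProduct] at h1
    rw [Matrix.one_apply, ← h1]
    unfold dotProduct
    refine Finset.sum_congr rfl fun i _ => ?_
    simp [hV, mul_comm]
  have hVV' : V * Vᵀ = 1 := by
    have e : Fin (Fintype.card N) ≃ N := (Fintype.equivFin N).symm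
    exact (Matrix.mul_eq_one_comm_of_equiv e).1 hVV
  have hPV : (Sᵀ * S) * V = V * diagonal l := by
    ext i j
    rw [mul_diagonal]
    have h1 := hsym.apply_eigenvectorBasis hn j
    have h2 : (T.adjoint ∘ₗ T) (b j) = toEuclideanLin (Sᵀ * S) (b j) := by
      have h3 : T.adjoint = toEuclideanLin Sᵀ := by
        rw [hT, ← Matrix.toEuclideanLin_conjTranspose_eq_adjoint,
          conjTranspose_eq_transpose_of_trivial]
      rw [LinearMap.comp_apply, h3, hT, Matrix.toLpLin_apply, Matrix.toLpLin_apply,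
        Matrix.toLpLin_apply]
      simp [Matrix.mulVec_mulVec]
    rw [← hb, h2] at h1
    have h4 := congrFun (congrArg (fun v : EuclideanSpace ℝ N => v.ofLp) h1) i
    simp only [Matrix.toLpLin_apply] at h4
    rw [Matrix.mul_apply]
    have h5 : ((Sᵀ * S) *ᵥ (b j).ofLp) i = ∑ k, (Sᵀ * S) i k * V k j := by
      simp [Matrix.mulVec, dotProduct, hV]
    rw [← h5]
    simpa [hV, mul_comm] using h4
  refine ⟨V, l, ⟨hVV', hVV, ?_⟩, hsym.eigenvalues_antitone hn, fun i => T.singularValues_fin hn i⟩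
  rw [← hPV, Matrix.mul_assoc, hVV', Matrix.mul_one]

theorem val_nonneg_eigen {S : Matrix N N ℝ} {J : Type} [Fintype J] [DecidableEq J]
    {V : Matrix N J ℝ} {l : J → ℝ} (h : Dec (Sᵀ * S) V l) (j : J) : 0 ≤ l j := by
  have h1 := congrFun (congrFun h.conj j) j
  rw [diagonal_apply_eq] at h1
  rw [← h1]
  have e : Vᵀ * (Sᵀ * S) * V = (S * V)ᵀ * (S * V) := by
    rw [transpose_mul]; simp only [Matrix.mul_assoc]
  rw [e, Matrix.mul_apply]
  exact Finset.sum_nonneg fun k _ => by rw [transpose_apply]; exact mul_self_nonneg _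

/-- the value in terms of the eigenvalues of the Gram matrix -/
theorem val_eq {σ S : Matrix N N ℝ} (hσ : Form σ) (hS : Sᵀ * σ * S = σ) {n : ℕ}
    (hn : Fintype.card N = 2 * n) : ∃ (V : Matrix N (Fin (Fintype.card N)) ℝ)
    (l : Fin (Fintype.card N) → ℝ), Dec (Sᵀ * S) V l ∧ (∀ j, 0 < l j) ∧
    val n S = 1 / 4 * ∑ j, |Real.log (l j)| := by
  obtain ⟨V, l, hd, hanti, hsv⟩ := sv_dec S
  have hP := gram hσ hS
  have hpos : ∀ j, 0 < l j := fun j =>
    lt_of_le_of_ne (val_nonneg_eigen hd j) (l_ne hσ hd hP j).symm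
  refine ⟨V, l, hd, hpos, ?_⟩
  set b : ℕ → ℝ := fun i => Real.log ((toEuclideanLin S).singularValues i) with hb
  have hbl : ∀ i : Fin (Fintype.card N), b i = 1 / 2 * Real.log (l i) := by
    intro i
    rw [hb]
    simp only
    rw [hsv, Real.log_sqrt (hpos i).le]
    ring
  have hrange : ∀ f : ℕ → ℝ, ∑ i ∈ range (2 * n), f i = ∑ i : Fin (Fintype.card N), f i := by
    intro f
    rw [← hn, Fin.sum_univ_eq_sum_range]
  have hanti' : ∀ i j, i ≤ j → j < 2 * n → b j ≤ b i := by
    intro i j hij hj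
    have hj' : j < Fintype.card N := by omega
    have hi' : i < Fintype.card N := by omega
    have e1 := hbl ⟨j, hj'⟩
    have e2 := hbl ⟨i, hi'⟩
    simp only at e1 e2
    rw [e1, e2]
    have h1 : l ⟨j, hj'⟩ ≤ l ⟨i, hi'⟩ := hanti (by rw [Fin.mk_le_mk]; exact hij)
    have h2 := Real.log_le_log (hpos _) h1
    linarith
  have h0 : ∑ i ∈ range (2 * n), b i = 0 := by
    rw [hrange]
    simp_rw [hbl]
    have h1 := sum_inv hσ hd hP (fun x => 1 / 2 * Real.log x)
    simp only [Real.log_inv] at h1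
    have h2 : ∑ j, 1 / 2 * -Real.log (l j) = -∑ j, 1 / 2 * Real.log (l j) := by
      rw [← Finset.sum_neg_distrib]
      exact Finset.sum_congr rfl fun j _ => by ring
    linarith
  have hc : ((range (2 * n)).filter (fun i => 0 < b i)).card =
      ((range (2 * n)).filter (fun i => b i < 0)).card := by
    have h1 := sum_inv hσ hd hP (fun x => if 0 < Real.log x then (1 : ℝ) else 0)
    simp only [Real.log_inv] at h1
    have e1 : (((range (2 * n)).filter (fun i => 0 < b i)).card : ℝ) =
        ∑ j, if 0 < Real.log (l j) then (1 : ℝ) else 0 := by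
      rw [Finset.card_filter]
      push_cast
      rw [hrange]
      refine Finset.sum_congr rfl fun j _ => ?_
      rw [hbl]
      by_cases h : 0 < Real.log (l j)
      · rw [if_pos h, if_pos (by linarith)]
      · rw [if_neg h, if_neg (by linarith)]
    have e2 : (((range (2 * n)).filter (fun i => b i < 0)).card : ℝ) =
        ∑ j, if 0 < -Real.log (l j) then (1 : ℝ) else 0 := by
      rw [Finset.card_filter]
      push_cast
      rw [hrange]
      refine Finset.sum_congr rfl fun j _ => ?_
      rw [hbl]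
      by_cases h : 0 < -Real.log (l j)
      · rw [if_pos h, if_pos (by linarith)]
      · rw [if_neg h, if_neg (by linarith)]
    rw [← e1, ← e2] at h1
    exact_mod_cast h1
  have h3 := half_sum n b hanti' h0 hc
  unfold val
  rw [h3, hrange]
  have h4 : ∑ i : Fin (Fintype.card N), |b i| = 1 / 2 * ∑ j, |Real.log (l j)| := by
    rw [Finset.mul_sum]
    refine Finset.sum_congr rfl fun i _ => ?_
    rw [hbl, abs_mul]
    norm_num
  rw [h4]
  ring

end

end Pool.Agent.Q204.GS
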