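import Pool.Agent.Q204.GS.Add

/-!
# Every covariance matrix dominates a Gram matrix of a symplectic matrix
-/

set_option autoImplicit false

open Matrix Finset

namespace Pool.Agent.Q204.GS

section
variable {N : Type} [Fintype N] [DecidableEq N]

theorem dot_anti {σ : Matrix N N ℝ} (hσ : Form σ) (x y : N → ℝ) :
    x ⬝ᵥ σ *ᵥ y = -(y ⬝ᵥ σ *ᵥ x) := by
  rw [dotProduct_mulVec, ← mulVec_transpose, hσ.anti, neg_mulVec, neg_dotProduct, dotProduct_comm]

theorem dot_symm {P : Matrix N N ℝ} (hP : Pᵀ = P) (x y : N → ℝ) :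
    x ⬝ᵥ P *ᵥ y = y ⬝ᵥ P *ᵥ x := by
  rw [dotProduct_mulVec, ← mulVec_transpose, hP, dotProduct_comm]

/-- a positive symplectic symmetric matrix is a Gram matrix of a symplectic matrix -/
theorem exists_root {σ P : Matrix N N ℝ} (hσ : Form σ) (hPs : Pᵀ = P)
    (hpos : ∀ x, 0 ≤ x ⬝ᵥ P *ᵥ x) (hP : P * σ * P = σ) :
    ∃ S : Matrix N N ℝ, Sᵀ * σ * S = σ ∧ Sᵀ * S = P := by
  obtain ⟨V, l, hd⟩ := exists_dec P hPs
  have hl : ∀ j, 0 < l j := by
    intro j
    refine lt_of_le_of_ne ?_ (l_ne hσ hd hP j).symm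
    have h1 := hpos (fun k => V k j)
    have h2 : (fun k => V k j) ⬝ᵥ P *ᵥ (fun k => V k j) = (Vᵀ * P * V) j j := by
      rw [Matrix.mul_assoc, Matrix.mul_apply]
      simp only [dotProduct, transpose_apply, Matrix.mul_apply, mulVec]
    rw [h2, hd.conj, diagonal_apply_eq] at h1
    exact h1
  have hD : Dec (V * diagonal (fun j => √(l j)) * Vᵀ) V (fun j => √(l j)) :=
    ⟨hd.right, hd.left, rfl⟩
  refine ⟨V * diagonal (fun j => √(l j)) * Vᵀ, ?_, ?_⟩
  · refine symp_of_pair hd.right fun j k hjk => ?_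
    have h1 := K_rel hd hP j k
    have h2 : l j * l k = 1 := by
      have : (l j * l k - 1) * (Vᵀ * σ * V) j k = 0 := by linarith
      rcases mul_eq_zero.1 this with h3 | h3
      · linarith
      · exact absurd h3 hjk
    rw [← Real.sqrt_mul (hl j).le, h2, Real.sqrt_one]
  · rw [hD.symm, hD.mul hD]
    have : (fun j => √(l j) * √(l j)) = l := by
      funext j
      exact Real.mul_self_sqrt (hl j).le
    rw [this, ← hd.eq]

/-- **Williamson.** -/
theorem exists_symp {σ γ : Matrix N N ℝ} (hσ : Form σ) (hγs : γᵀ = γ)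
    (hγ : ∀ a b : N → ℝ, 2 * (a ⬝ᵥ σ *ᵥ b) ≤ a ⬝ᵥ γ *ᵥ a + b ⬝ᵥ γ *ᵥ b) :
    ∃ S : Matrix N N ℝ, Sᵀ * σ * S = σ ∧ ∀ x, x ⬝ᵥ (Sᵀ * S) *ᵥ x ≤ x ⬝ᵥ γ *ᵥ x := by
  obtain ⟨V, g, hd⟩ := exists_dec γ hγs
  -- positivity
  have hg : ∀ j, 0 < g j := by
    intro j
    by_contra hneg
    push Not at hneg
    set a : N → ℝ := fun k => V k j with ha
    have h2 : a ⬝ᵥ γ *ᵥ a = g j := by
      have : a ⬝ᵥ γ *ᵥ a = (Vᵀ * γ * V) j j := by
        rw [Matrix.mul_assoc, Matrix.mul_apply]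
        simp only [ha, dotProduct, transpose_apply, Matrix.mul_apply, mulVec]
      rw [this, hd.conj, diagonal_apply_eq]
    have h3 : a ⬝ᵥ a = 1 := by
      have := congrFun (congrFun hd.left j) j
      rw [Matrix.mul_apply, one_apply_eq] at this
      rw [← this]
      rfl
    obtain ⟨c, hc⟩ : ∃ c, c = (σ *ᵥ a) ⬝ᵥ γ *ᵥ (σ *ᵥ a) := ⟨_, rfl⟩
    have h4 : ∀ t : ℝ, 2 * t ≤ g j + t ^ 2 * c := by
      intro t
      have h5 := hγ a ((-t) • (σ *ᵥ a))
      rw [mulVec_smul, mulVec_smul, dotProduct_smul, smul_dotProduct, dotProduct_smul,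
        mulVec_mulVec, hσ.sq, neg_mulVec, one_mulVec, dotProduct_neg, h3, h2, ← hc] at h5
      simp only [smul_eq_mul] at h5
      linarith
    have h5 := h4 (1 / (|c| + 1))
    have h6 : 0 < |c| + 1 := by positivity
    have h7 : (1 / (|c| + 1)) ^ 2 * c ≤ 1 / (|c| + 1) := by
      have : (1 / (|c| + 1)) * c ≤ 1 := by
        rw [one_div_mul_eq_div, div_le_one h6]
        linarith [le_abs_self c]
      calc (1 / (|c| + 1)) ^ 2 * c = (1 / (|c| + 1)) * ((1 / (|c| + 1)) * c) := by ring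
        _ ≤ (1 / (|c| + 1)) * 1 := mul_le_mul_of_nonneg_left this (by positivity)
        _ = _ := mul_one _
    have h8 : 0 < 1 / (|c| + 1) := by positivity
    linarith
  -- the square root and its inverse
  obtain ⟨R, hR⟩ : ∃ R, R = V * diagonal (fun j => √(g j)) * Vᵀ := ⟨_, rfl⟩
  obtain ⟨Ri, hRi⟩ : ∃ R, R = V * diagonal (fun j => 1 / √(g j)) * Vᵀ := ⟨_, rfl⟩
  have hDR : Dec R V (fun j => √(g j)) := ⟨hd.right, hd.left, hR⟩
  have hDRi : Dec Ri V (fun j => 1 / √(g j)) := ⟨hd.right, hd.left, hRi⟩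
  have hgs : ∀ j, √(g j) ≠ 0 := fun j => (Real.sqrt_pos.2 (hg j)).ne'
  have hRR : R * R = γ := by
    rw [hDR.mul hDR]
    have : (fun j => √(g j) * √(g j)) = g := by
      funext j
      exact Real.mul_self_sqrt (hg j).le
    rw [this, ← hd.eq]
  have hRRi : R * Ri = 1 := by
    rw [hDR.mul hDRi]
    have : (fun j => √(g j) * (1 / √(g j))) = fun _ => (1 : ℝ) := by
      funext j
      rw [mul_one_div, div_self (hgs j)]
    rw [this, diagonal_one, Matrix.mul_one, hd.right]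
  have hRiR : Ri * R = 1 := mul_eq_one_comm.1 hRRi
  have hRs := hDR.symm
  have hRis := hDRi.symm
  obtain ⟨K, hK⟩ : ∃ K, K = R * σ * R := ⟨_, rfl⟩
  obtain ⟨K', hK'⟩ : ∃ K', K' = Ri * σ * Ri := ⟨_, rfl⟩
  have hKT : Kᵀ = -K := by
    rw [hK, transpose_mul, transpose_mul, hRs, hσ.anti, Matrix.neg_mul, Matrix.mul_neg,
      Matrix.mul_assoc]
  have hK'K : K' * K = -1 := by
    rw [hK, hK']
    have : Ri * σ * Ri * (R * σ * R) = Ri * σ * (Ri * R) * σ * R := by simp only [Matrix.mul_assoc]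
    rw [this, hRiR, Matrix.mul_one, Matrix.mul_assoc Ri, hσ.sq, Matrix.mul_neg, Matrix.mul_one,
      Matrix.neg_mul, hRiR]
  have hRK'R : R * K' * R = σ := by
    rw [hK']
    have : R * (Ri * σ * Ri) * R = (R * Ri) * σ * (Ri * R) := by simp only [Matrix.mul_assoc]
    rw [this, hRRi, hRiR, Matrix.one_mul, Matrix.mul_one]
  -- `‖x‖ ≤ ‖K x‖`
  have hKge : ∀ x : N → ℝ, x ⬝ᵥ x ≤ (K *ᵥ x) ⬝ᵥ (K *ᵥ x) := by
    intro x
    have h1 := hγ (Ri *ᵥ (-x)) (Ri *ᵥ (K *ᵥ x))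
    have e1 : ∀ y : N → ℝ, (Ri *ᵥ y) ⬝ᵥ γ *ᵥ (Ri *ᵥ y) = y ⬝ᵥ y := by
      intro y
      have : (Ri *ᵥ y) ⬝ᵥ γ *ᵥ (Ri *ᵥ y) = y ⬝ᵥ (Ri * γ * Ri) *ᵥ y := by
        rw [← mulVec_mulVec, ← mulVec_mulVec, dotProduct_mulVec y, ← mulVec_transpose, hRis]
      rw [this, ← hRR]
      have e : Ri * (R * R) * Ri = (Ri * R) * (R * Ri) := by simp only [Matrix.mul_assoc]
      rw [e, hRiR, hRRi, Matrix.one_mul, one_mulVec]
    have e2 : (Ri *ᵥ (-x)) ⬝ᵥ σ *ᵥ (Ri *ᵥ (K *ᵥ x)) = x ⬝ᵥ x := by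
      have : (Ri *ᵥ (-x)) ⬝ᵥ σ *ᵥ (Ri *ᵥ (K *ᵥ x)) = (-x) ⬝ᵥ (K' * K) *ᵥ x := by
        rw [hK', ← mulVec_mulVec, ← mulVec_mulVec, ← mulVec_mulVec, dotProduct_mulVec (-x),
          ← mulVec_transpose, hRis]
      rw [this, hK'K, neg_mulVec, one_mulVec, neg_dotProduct, dotProduct_neg, neg_neg]
    rw [e1, e1, e2, neg_dotProduct, dotProduct_neg, neg_neg] at h1
    linarith
  obtain ⟨M, hM⟩ : ∃ M, M = Kᵀ * K := ⟨_, rfl⟩
  have hMs : Mᵀ = M := by rw [hM, transpose_mul, transpose_transpose]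
  have hMK : M = -(K * K) := by rw [hM, hKT, Matrix.neg_mul]
  obtain ⟨W, m, hdM⟩ := exists_dec M hMs
  have hm : ∀ i, 1 ≤ m i := by
    intro i
    have h1 := hKge (fun k => W k i)
    have h3 : (fun k => W k i) ⬝ᵥ (fun k => W k i) = 1 := by
      have := congrFun (congrFun hdM.left i) i
      rw [Matrix.mul_apply, one_apply_eq] at this
      rw [← this]
      rfl
    have h2 : (K *ᵥ (fun k => W k i)) ⬝ᵥ (K *ᵥ (fun k => W k i)) = (Wᵀ * M * W) i i := by
      have e1 : (K *ᵥ (fun k => W k i)) ⬝ᵥ (K *ᵥ (fun k => W k i)) =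
          (fun k => W k i) ⬝ᵥ M *ᵥ (fun k => W k i) := by
        rw [hM, ← mulVec_mulVec, dotProduct_mulVec (fun k => W k i), ← mulVec_transpose,
          transpose_transpose]
      rw [e1, Matrix.mul_assoc, Matrix.mul_apply]
      simp only [dotProduct, transpose_apply, Matrix.mul_apply, mulVec]
    rw [h3, h2, hdM.conj, diagonal_apply_eq] at h1
    exact h1
  have hm0 : ∀ i, 0 < m i := fun i => lt_of_lt_of_le one_pos (hm i)
  obtain ⟨T, hT⟩ : ∃ T, T = W * diagonal (fun i => 1 / √(m i)) * Wᵀ := ⟨_, rfl⟩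
  have hDT : Dec T W (fun i => 1 / √(m i)) := ⟨hdM.right, hdM.left, hT⟩
  have hTs := hDT.symm
  -- `T` commutes with `K`
  have hcomm : T * K = K * T := by
    have h1 : M * K = K * M := by
      rw [hMK, Matrix.neg_mul, Matrix.mul_neg, Matrix.mul_assoc]
    set L := Wᵀ * K * W with hL
    have e1 : diagonal m * Wᵀ = Wᵀ * M := by
      rw [hdM.eq]
      have : Wᵀ * (W * diagonal m * Wᵀ) = (Wᵀ * W) * diagonal m * Wᵀ := by
        simp only [Matrix.mul_assoc]
      rw [this, hdM.left, Matrix.one_mul]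
    have e2 : W * diagonal m = M * W := by
      rw [hdM.eq]
      have : W * diagonal m * Wᵀ * W = W * diagonal m * (Wᵀ * W) := by
        simp only [Matrix.mul_assoc]
      rw [this, hdM.left, Matrix.mul_one]
    have h2 : diagonal m * L = L * diagonal m := by
      calc diagonal m * L = (diagonal m * Wᵀ) * K * W := by rw [hL]; simp only [Matrix.mul_assoc]
        _ = Wᵀ * (M * K) * W := by rw [e1]; simp only [Matrix.mul_assoc]
        _ = Wᵀ * K * (M * W) := by rw [h1]; simp only [Matrix.mul_assoc]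
        _ = L * diagonal m := by rw [← e2, hL]; simp only [Matrix.mul_assoc]
    have h3 : diagonal (fun i => 1 / √(m i)) * L = L * diagonal (fun i => 1 / √(m i)) := by
      ext i j
      rw [mul_diagonal, diagonal_mul]
      have h4 := congrFun (congrFun h2 i) j
      rw [mul_diagonal, diagonal_mul] at h4
      by_cases h0 : L i j = 0
      · rw [h0]; simp
      · have : m i = m j := by
          have h5 : (m i - m j) * L i j = 0 := by linarith
          rcases mul_eq_zero.1 h5 with h6 | h6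
          · linarith
          · exact absurd h6 h0
        rw [this, mul_comm]
    have h4 : K = W * L * Wᵀ := by
      have : W * (Wᵀ * K * W) * Wᵀ = (W * Wᵀ) * K * (W * Wᵀ) := by simp only [Matrix.mul_assoc]
      rw [hL, this, hdM.right, Matrix.one_mul, Matrix.mul_one]
    calc T * K = W * diagonal (fun i => 1 / √(m i)) * (Wᵀ * W) * L * Wᵀ := by
          rw [hT, h4]; simp only [Matrix.mul_assoc]
      _ = W * (diagonal (fun i => 1 / √(m i)) * L) * Wᵀ := by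
          rw [hdM.left, Matrix.mul_one]; simp only [Matrix.mul_assoc]
      _ = W * (L * diagonal (fun i => 1 / √(m i))) * Wᵀ := by rw [h3]
      _ = W * L * (Wᵀ * W) * diagonal (fun i => 1 / √(m i)) * Wᵀ := by
          rw [hdM.left, Matrix.mul_one]; simp only [Matrix.mul_assoc]
      _ = K * T := by rw [hT, h4]; simp only [Matrix.mul_assoc]
  have hTTM : T * T * M = 1 := by
    have h1 : Dec (T * T) W (fun i => (1 / √(m i)) * (1 / √(m i))) :=
      ⟨hdM.right, hdM.left, hDT.mul hDT⟩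
    rw [h1.mul hdM]
    have : (fun i => 1 / √(m i) * (1 / √(m i)) * m i) = fun _ => (1 : ℝ) := by
      funext i
      have h2 := Real.mul_self_sqrt (hm0 i).le
      have h3 : √(m i) ≠ 0 := (Real.sqrt_pos.2 (hm0 i)).ne'
      have : 1 / √(m i) * (1 / √(m i)) = 1 / m i := by
        rw [← h2, one_div_mul_one_div, Real.sqrt_mul_self (Real.sqrt_nonneg _)]
      rw [this, one_div_mul_cancel (hm0 i).ne']
    rw [this, diagonal_one, Matrix.mul_one, hdM.right]
  -- `K T T = K'`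
  have hKTT : K * (T * T) = K' := by
    have h1 : K' * M = K := by
      rw [hMK, Matrix.mul_neg, ← Matrix.mul_assoc, hK'K, Matrix.neg_mul, Matrix.one_mul, neg_neg]
    have h2 : M * (T * T) = 1 := mul_eq_one_comm.1 hTTM
    rw [← h1, Matrix.mul_assoc, h2, Matrix.mul_one]
  obtain ⟨P, hP⟩ : ∃ P, P = R * T * R := ⟨_, rfl⟩
  have hPs : Pᵀ = P := by
    rw [hP, transpose_mul, transpose_mul, hRs, hTs, Matrix.mul_assoc]
  have hPσ : P * σ * P = σ := by
    calc P * σ * P = R * (T * (R * σ * R)) * T * R := by rw [hP]; simp only [Matrix.mul_assoc]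
      _ = R * (T * K) * T * R := by rw [hK]
      _ = R * (K * (T * T)) * R := by rw [hcomm]; simp only [Matrix.mul_assoc]
      _ = σ := by rw [hKTT, hRK'R]
  have hquad : ∀ x, x ⬝ᵥ P *ᵥ x = (R *ᵥ x) ⬝ᵥ T *ᵥ (R *ᵥ x) := by
    intro x
    rw [hP, ← mulVec_mulVec, ← mulVec_mulVec, dotProduct_mulVec x, ← mulVec_transpose, hRs]
  have hpos : ∀ x, 0 ≤ x ⬝ᵥ P *ᵥ x := by
    intro x
    rw [hquad, hDT.quad]
    exact Finset.sum_nonneg fun j _ => mul_nonneg (by positivity) (sq_nonneg _)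
  obtain ⟨S, hS1, hS2⟩ := exists_root hσ hPs hpos hPσ
  refine ⟨S, hS1, fun x => ?_⟩
  rw [hS2, hquad, hDT.quad]
  have e : x ⬝ᵥ γ *ᵥ x = (R *ᵥ x) ⬝ᵥ (R *ᵥ x) := by
    rw [← hRR, ← mulVec_mulVec, dotProduct_mulVec x, ← mulVec_transpose, hRs]
  rw [e, quad_one hdM.right]
  refine Finset.sum_le_sum fun i _ => ?_
  have h1 : 1 / √(m i) ≤ 1 := by
    rw [div_le_one (Real.sqrt_pos.2 (hm0 i))]
    exact Real.one_le_sqrt.2 (hm i)
  have := mul_le_mul_of_nonneg_right h1 (sq_nonneg ((Wᵀ *ᵥ (R *ᵥ x)) i))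
  linarith

end

end Pool.Agent.Q204.GS
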